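import Mathlib

/-!
# Clusters of small radius
-/

namespace Pool.Agent.Lib_MP_22d2c8_tw

open Finset

/-- Region growing: a finite set with an integer pseudometric can be divided into clusters of
radius less than `2 κ` so that few points `g` all of whose relatives are at distance at most `1` have
a relative in another cluster. -/
theorem exists_clusters_aux {V : Type} [Fintype V] [DecidableEq V] (d : V → V → ℕ)
    (hd0 : ∀ v, d v v = 0) (hsymm : ∀ u v, d u v = d v u)
    (htri : ∀ u v w, d u w ≤ d u v + d v w) (R : V → V → Prop) (κ : ℕ) (η : ℝ) (hη : 0 ≤ η)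
    (hκ : ((Fintype.card V : ℝ) + 1) < (1 + η) ^ κ) (A : V → Prop)
    (hA : ∀ g h, A g → R g h → d g h ≤ 1) :
    ∀ (c : ℕ) (U : Finset V), U.card ≤ c → ∃ comp : V → V, (∀ v ∈ U, comp v ∈ U ∧
      d (comp v) v + 1 ≤ 2 * κ) ∧
      ∀ B : Finset V, (∀ g ∈ B, A g ∧ g ∈ U ∧ (∀ h, R g h → h ∈ U) ∧
        ∃ h, R g h ∧ comp h ≠ comp g) → (B.card : ℝ) ≤ 2 * η * U.card := by
  classical
  intro c
  induction c with
  | zero =>
    intro U hU
    have hU0 : U = ∅ := card_eq_zero.1 (Nat.le_zero.1 hU)
    refine ⟨id, ?_, ?_⟩
    · intro v hv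
      rw [hU0] at hv
      simp at hv
    · intro B hB
      have : B = ∅ := by
        rw [eq_empty_iff_forall_notMem]
        intro g hg
        have := (hB g hg).2.1
        rw [hU0] at this
        simp at this
      rw [this, hU0]
      simp
  | succ c ih =>
    intro U hU
    by_cases hUe : U = ∅
    · exact ih U (by rw [hUe]; simp)
    obtain ⟨u, hu⟩ := nonempty_iff_ne_empty.2 hUe
    -- the good points whose relatives are in `U`
    let Al : Finset V := univ.filter fun g => A g ∧ g ∈ U ∧ ∀ h, R g h → h ∈ U
    let W : ℕ → ℝ := fun k => 1 + ((Al.filter fun g => d u g ≤ 2 * k).card : ℝ)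
    have hW0 : ∀ k, 1 ≤ W k := fun k => by
      show (1 : ℝ) ≤ 1 + _
      have : (0 : ℝ) ≤ ((Al.filter fun g => d u g ≤ 2 * k).card : ℝ) := Nat.cast_nonneg _
      linarith
    have hWle : ∀ k, W k ≤ Fintype.card V + 1 := fun k => by
      have h1 : (Al.filter fun g => d u g ≤ 2 * k).card ≤ Fintype.card V := card_le_univ _
      have h2 : ((Al.filter fun g => d u g ≤ 2 * k).card : ℝ) ≤ Fintype.card V := by
        exact_mod_cast h1
      show 1 + _ ≤ _
      linarith
    obtain ⟨k, hk, hgrow⟩ : ∃ k, k < κ ∧ W (k + 1) ≤ (1 + η) * W k := by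
      by_contra hcon
      push Not at hcon
      have h1 : ∀ j, j ≤ κ → (1 + η) ^ j ≤ W j := by
        intro j
        induction j with
        | zero => intro _; simpa using hW0 0
        | succ j ihj =>
          intro hj
          have h2 := ihj (by omega)
          have h3 := hcon j (by omega)
          rw [pow_succ, mul_comm]
          exact (mul_le_mul_of_nonneg_left h2 (by linarith)).trans h3.le
      have h4 := h1 κ le_rfl
      have h5 := hWle κ
      linarith
    let Bl : Finset V := U.filter fun h => d u h ≤ 2 * k + 1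
    have huB : u ∈ Bl := by
      simp only [Bl, mem_filter]
      exact ⟨hu, by rw [hd0]; omega⟩
    have hcardU : (U \ Bl).card + Bl.card = U.card :=
      card_sdiff_add_card_eq_card (filter_subset _ _)
    have hBpos : 1 ≤ Bl.card := card_pos.2 ⟨u, huB⟩
    obtain ⟨comp', hc1, hc2⟩ := ih (U \ Bl) (by omega)
    refine ⟨fun v => if v ∈ Bl then u else comp' v, ?_, ?_⟩
    · intro v hv
      by_cases hvB : v ∈ Bl
      · simp only [hvB, if_true]
        refine ⟨hu, ?_⟩
        have := (mem_filter.1 hvB).2
        omega
      · simp only [hvB, if_false]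
        have h1 := hc1 v (mem_sdiff.2 ⟨hv, hvB⟩)
        exact ⟨(mem_sdiff.1 h1.1).1, h1.2⟩
    · intro B hB
      -- the points cut by the ball
      let B1 : Finset V := Al.filter fun g => 2 * k + 1 ≤ d u g ∧ d u g ≤ 2 * (k + 1)
      let B2 : Finset V := B.filter fun g => g ∉ B1
      have hB2 : (B2.card : ℝ) ≤ 2 * η * (U \ Bl).card := by
        apply hc2
        intro g hg
        rw [mem_filter] at hg
        obtain ⟨hgA, hgU, hgR, h, hRh, hne⟩ := hB g hg.1
        have hgAl : g ∈ Al := by simp only [Al, mem_filter]; exact ⟨mem_univ _, hgA, hgU, hgR⟩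
        have hnb : ¬ (2 * k + 1 ≤ d u g ∧ d u g ≤ 2 * (k + 1)) := fun hh =>
          hg.2 (by simp only [B1, mem_filter]; exact ⟨hgAl, hh⟩)
        by_cases hgB : g ∈ Bl
        · exfalso
          have h1 := (mem_filter.1 hgB).2
          have h2 : d u g ≤ 2 * k := by
            by_contra h3
            exact hnb ⟨by omega, by omega⟩
          have h4 : d u h ≤ 2 * k + 1 := (htri u g h).trans (by
            have := hA g h hgA hRh
            omega)
          have h5 : h ∈ Bl := mem_filter.2 ⟨hgR h hRh, h4⟩
          apply hne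
          simp only [hgB, h5, if_true]
        · have hall : ∀ h', R g h' → h' ∈ U \ Bl := by
            intro h' hR'
            rw [mem_sdiff]
            refine ⟨hgR h' hR', ?_⟩
            intro h6
            have h7 := (mem_filter.1 h6).2
            have h8 : ¬ d u g ≤ 2 * k + 1 := fun h9 => hgB (mem_filter.2 ⟨hgU, h9⟩)
            have h9 : d u g ≤ d u h' + d h' g := htri _ _ _
            have h10 := hA g h' hgA hR'
            rw [hsymm] at h10
            exact hnb ⟨by omega, by omega⟩
          refine ⟨hgA, mem_sdiff.2 ⟨hgU, hgB⟩, hall, h, hRh, ?_⟩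
          have h11 := (mem_sdiff.1 (hall h hRh)).2
          intro h12
          apply hne
          simp only [hgB, h11, if_false]
          exact h12
      have hB1 : (B1.card : ℝ) ≤ 2 * η * Bl.card := by
        have h1 : B1.card + (Al.filter fun g => d u g ≤ 2 * k).card ≤
            (Al.filter fun g => d u g ≤ 2 * (k + 1)).card := by
          rw [← card_union_of_disjoint]
          · apply card_le_card
            intro g hg
            rw [mem_union] at hg
            rcases hg with hg | hg
            · simp only [B1, mem_filter] at hg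
              exact mem_filter.2 ⟨hg.1, hg.2.2⟩
            · rw [mem_filter] at hg
              exact mem_filter.2 ⟨hg.1, by omega⟩
          · rw [disjoint_left]
            intro g hg hg'
            simp only [B1, mem_filter] at hg
            rw [mem_filter] at hg'
            omega
        have h2 : ((Al.filter fun g => d u g ≤ 2 * k).card : ℝ) ≤ Bl.card := by
          have : (Al.filter fun g => d u g ≤ 2 * k).card ≤ Bl.card := by
            apply card_le_card
            intro g hg
            rw [mem_filter] at hg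
            simp only [Al, mem_filter] at hg
            exact mem_filter.2 ⟨hg.1.2.2.1, by omega⟩
          exact_mod_cast this
        have h3 : (B1.card : ℝ) + ((Al.filter fun g => d u g ≤ 2 * k).card : ℝ) ≤
            ((Al.filter fun g => d u g ≤ 2 * (k + 1)).card : ℝ) := by exact_mod_cast h1
        have h4 : (1 + ((Al.filter fun g => d u g ≤ 2 * (k + 1)).card : ℝ)) ≤
            (1 + η) * (1 + ((Al.filter fun g => d u g ≤ 2 * k).card : ℝ)) := hgrow
        have h5 : (1 : ℝ) ≤ Bl.card := by exact_mod_cast hBpos
        nlinarith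
      have hBB : B ⊆ B1 ∪ B2 := by
        intro g hg
        rw [mem_union]
        by_cases h : g ∈ B1
        · exact Or.inl h
        · exact Or.inr (mem_filter.2 ⟨hg, h⟩)
      have h6 : (B.card : ℝ) ≤ B1.card + B2.card := by
        exact_mod_cast (card_le_card hBB).trans (card_union_le _ _)
      have h7 : (U.card : ℝ) = (U \ Bl).card + Bl.card := by exact_mod_cast hcardU.symm
      rw [h7]
      linarith

theorem exists_clusters {V : Type} [Fintype V] [DecidableEq V] (d : V → V → ℕ)
    (hd0 : ∀ v, d v v = 0) (hsymm : ∀ u v, d u v = d v u)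
    (htri : ∀ u v w, d u w ≤ d u v + d v w) (R : V → V → Prop) (κ : ℕ) (η : ℝ) (hη : 0 ≤ η)
    (hκ : ((Fintype.card V : ℝ) + 1) < (1 + η) ^ κ) (A : V → Prop)
    (hA : ∀ g h, A g → R g h → d g h ≤ 1) :
    ∃ comp : V → V, (∀ v, d (comp v) v + 1 ≤ 2 * κ) ∧
      ∀ B : Finset V, (∀ g ∈ B, A g ∧ ∃ h, R g h ∧ comp h ≠ comp g) →
        (B.card : ℝ) ≤ 2 * η * Fintype.card V := by
  obtain ⟨comp, h1, h2⟩ := exists_clusters_aux d hd0 hsymm htri R κ η hη hκ A hA _ univ le_rfl
  refine ⟨comp, fun v => (h1 v (mem_univ v)).2, ?_⟩
  intro B hB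
  have := h2 B (fun g hg => ⟨(hB g hg).1, mem_univ _, fun _ _ => mem_univ _, (hB g hg).2⟩)
  rwa [card_univ] at this

end Pool.Agent.Lib_MP_22d2c8_tw
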