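import Pool.Agent.Lib_MP_22d2c8_tw.Field

/-!
# The average box norm of the hard function on a subcube
-/

namespace Pool.Agent.Lib_MP_22d2c8_tw

open Finset

/-- The input of the circuit in which the block variables `x` are placed at the coordinates
`e (j, a)`, the other coordinates are those of `y`, and the second half is `z`. -/
noncomputable def placeY {n p m : ℕ} (e : Fin p × Fin m → Fin n) (y z : Fin n → Bool)
    (x : Fin p → Fin m → Bool) : Fin n ⊕ Fin n → Bool
  | Sum.inl i => Function.extend e (fun ja => x ja.1 ja.2) y i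
  | Sum.inr k => z k

theorem fDiff_ne_shift {K Y : Type} [Field K] [CharP K 2] [Algebra (ZMod 2) K]
    {q : ℕ} (ξ : Fin (q + 1) → Y → K) (x y : Fin (q + 1) → Y) (hξ : Indep ξ)
    (o : Y) (ho : ξ 0 o = 0) (w : K)
    (hw : ∀ t, t ≠ o → ∃ φ : K →ₗ[ZMod 2] ZMod 2,
      φ (ξ 0 t + ξ 0 o) ≠ 0 ∧ (∀ i, i ≠ 0 → ∀ s, φ (ξ i s) = 0) ∧ φ w = 0)
    (hxy : ∀ j, x j ≠ y j) (hx : x 0 ≠ o) (hy : y 0 ≠ o) :
    fDiff (fList ξ x y) (fun b => (b + w)⁻¹) ≠ 0 := by
  have hn := fNum_ne ξ x y hξ hxy
  have hp : fProd (fList ξ x y) (w + ((fList ξ x y).map Prod.fst).sum) ≠ 0 := by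
    rw [fList_sum, fList_succ]
    simp only [fProd]
    refine mul_ne_zero ?_ ?_
    · intro h0
      obtain ⟨φ, h1, h2, hφw⟩ := hw (x 0) hx
      have h3 := span_vanish _ _ _ φ (fun i s => h2 i.succ (Fin.succ_ne_zero i) s) _
        (fProd_zero _ _ h0)
      apply h1
      rw [ho, add_zero]
      rw [Fin.sum_univ_succ, map_add, map_add, map_sum, hφw] at h3
      simpa [h2] using h3
    · intro h0
      obtain ⟨φ, h1, h2, hφw⟩ := hw (y 0) hy
      have h3 := span_vanish _ _ _ φ (fun i s => h2 i.succ (Fin.succ_ne_zero i) s) _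
        (fProd_zero _ _ h0)
      apply h1
      rw [ho, add_zero]
      rw [Fin.sum_univ_succ, map_add, map_add, map_add, map_sum, map_add, hφw] at h3
      have h4 : ∀ u v : ZMod 2, 0 + (u + 0) + (u + v) = v := by decide
      have h5 : ∑ i : Fin q, φ (ξ i.succ (x i.succ)) = 0 :=
        Finset.sum_eq_zero fun i _ => h2 i.succ (Fin.succ_ne_zero i) _
      rw [h5, h4] at h3
      exact h3
  have := fDiff_inv (fList ξ x y) w hp
  rw [this]
  exact div_ne_zero hn hp

theorem sum_box_le {n : ℕ} {K : Type} [Field K] [Algebra (ZMod 2) K]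
    (b : Module.Basis (Fin n) (ZMod 2) K) (p m : ℕ) (e : Fin (p + 1) × Fin m → Fin n)
    (he : Function.Injective e) (y0 : Fin n → Bool) :
    ∑ z : Fin n → Bool,
      box (p + 1) (fun x : Fin (p + 1) → (Fin m → Bool) => sgn (invForm b (placeY e y0 z x))) ≤
        2 ^ n * (((p : ℝ) + 3) / 2 ^ m) := by
  classical
  have : CharP K 2 := charP_of_injective_algebraMap (algebraMap (ZMod 2) K).injective 2
  set ξ : Fin (p + 1) → (Fin m → Bool) → K := fun j t => ∑ a, bit (t a) • b (e (j, a)) with hξdef
  set w : K := ∑ i ∈ univ.filter (fun i => i ∉ Set.range e), bit (y0 i) • b i with hwdef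
  have hF : ∀ z : Fin n → Bool,
      (fun x : Fin (p + 1) → (Fin m → Bool) => sgn (invForm b (placeY e y0 z x))) =
      fun x => chr b z ((fun c : K => (c + w)⁻¹) (∑ j, ξ j (x j))) := by
    intro z
    funext x
    have h1 : ∑ i, bit (placeY e y0 z x (Sum.inl i)) • b i = (∑ j, ξ j (x j)) + w := by
      simp only [hξdef]
      rw [← Fintype.sum_prod_type' (f := fun (j : Fin (p + 1)) (a : Fin m) =>
        bit (x j a) • b (e (j, a)))]
      rw [← sum_filter_add_sum_filter_not univ (fun i => i ∈ Set.range e)]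
      congr 1
      · symm
        have hinj : ∑ ja : Fin (p + 1) × Fin m, bit (x ja.1 ja.2) • b (e ja) =
            ∑ i ∈ univ.image e, bit (placeY e y0 z x (Sum.inl i)) • b i := by
          rw [sum_image (fun a _ c _ h => he h)]
          refine sum_congr rfl fun ja _ => ?_
          have : placeY e y0 z x (Sum.inl (e ja)) = x ja.1 ja.2 := by
            show Function.extend e (fun ja => x ja.1 ja.2) y0 (e ja) = x ja.1 ja.2
            exact he.extend_apply _ _ _
          rw [this]
        rw [hinj]
        apply sum_congr _ fun _ _ => rfl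
        ext i
        simp
      · rw [hwdef]
        refine sum_congr rfl fun i hi => ?_
        rw [mem_filter] at hi
        have : placeY e y0 z x (Sum.inl i) = y0 i := by
          show Function.extend e (fun ja => x ja.1 ja.2) y0 i = y0 i
          exact Function.extend_apply' _ _ _ (fun ⟨ja, hja⟩ => hi.2 ⟨ja, hja⟩)
        rw [this]
    unfold invForm chr
    rw [h1]
    rfl
  have hcoord : ∀ (j : Fin (p + 1)) (a : Fin m) (i : Fin (p + 1)) (s : Fin m → Bool),
      b.coord (e (j, a)) (ξ i s) = if i = j then bit (s a) else 0 := by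
    intro j a i s
    simp only [hξdef, map_sum, map_smul, Module.Basis.coord_apply, Module.Basis.repr_self]
    split_ifs with hij
    · subst hij
      rw [Finset.sum_eq_single a]
      · simp
      · intro a' _ ha'
        rw [Finsupp.single_eq_of_ne]
        · simp
        · intro hc
          have := he hc
          simp only [Prod.mk.injEq, true_and] at this
          first | exact ha' this | exact ha' this.symm
      · intro h; exact absurd (Finset.mem_univ a) h
    · refine Finset.sum_eq_zero fun a' _ => ?_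
      rw [Finsupp.single_eq_of_ne]
      · simp
      · intro hc
        have := he hc
        simp only [Prod.mk.injEq] at this
        first | exact hij this.1 | exact hij this.1.symm
  have hcoordw : ∀ (j : Fin (p + 1)) (a : Fin m), b.coord (e (j, a)) w = 0 := by
    intro j a
    simp only [hwdef, map_sum, map_smul, Module.Basis.coord_apply, Module.Basis.repr_self]
    refine Finset.sum_eq_zero fun i hi => ?_
    rw [mem_filter] at hi
    rw [Finsupp.single_eq_of_ne]
    · simp
    · intro hc
      exact hi.2 ⟨_, hc⟩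
  have hbit : ∀ u v : Bool, u ≠ v → bit u + bit v ≠ 0 := by decide
  have hInd : Indep ξ := by
    intro j t t' htt
    obtain ⟨a, ha⟩ := Function.ne_iff.mp htt
    refine ⟨b.coord (e (j, a)), ?_, ?_⟩
    · rw [map_add, hcoord, hcoord]
      simpa using hbit _ _ ha
    · intro i hi s
      rw [hcoord]
      simp [hi]
  have hIndw : ∀ t : Fin m → Bool, t ≠ (fun _ => false) → ∃ φ : K →ₗ[ZMod 2] ZMod 2,
      φ (ξ 0 t + ξ 0 (fun _ => false)) ≠ 0 ∧ (∀ i, i ≠ 0 → ∀ s, φ (ξ i s) = 0) ∧ φ w = 0 := by
    intro t ht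
    obtain ⟨a, ha⟩ := Function.ne_iff.mp ht
    refine ⟨b.coord (e (0, a)), ?_, ?_, hcoordw 0 a⟩
    · rw [map_add, hcoord, hcoord]
      simpa using hbit _ _ ha
    · intro i hi s
      rw [hcoord]
      simp [hi]
  have h0 : ξ 0 (fun _ => false) = 0 := by simp [hξdef, bit]
  -- the number of bad pairs
  have hY : Fintype.card (Fin m → Bool) = 2 ^ m := by simp
  set bad : Finset ((Fin (p + 1) → (Fin m → Bool)) × (Fin (p + 1) → (Fin m → Bool))) :=
    univ.filter fun xy => fDiff (fList ξ xy.1 xy.2) (fun c : K => (c + w)⁻¹) = 0 with hbad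
  have hbadsub : bad ⊆
      ((univ : Finset (Fin (p + 1))).biUnion fun j => univ.filter fun xy => xy.1 j = xy.2 j) ∪
      ((univ.filter fun xy => xy.1 0 = fun _ => false) ∪
        (univ.filter fun xy => xy.2 0 = fun _ => false)) := by
    rintro ⟨x, y⟩ hxy
    simp only [hbad, Finset.mem_filter, Finset.mem_univ, true_and] at hxy
    by_contra hc
    simp only [Finset.mem_union, Finset.mem_biUnion, Finset.mem_filter, Finset.mem_univ,
      true_and, not_or, not_exists] at hc
    exact fDiff_ne_shift ξ x y hInd _ h0 w hIndw hc.1 hc.2.1 hc.2.2 hxy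
  have c1 : ∀ j : Fin (p + 1),
      ((univ : Finset ((Fin (p + 1) → (Fin m → Bool)) × (Fin (p + 1) → (Fin m → Bool)))).filter
        fun xy => xy.1 j = xy.2 j).card ≤
      Fintype.card (Fin m → Bool) ^ (p + 1) * Fintype.card (Fin m → Bool) ^ p := by
    intro j
    have hsub : ((univ : Finset ((Fin (p + 1) → (Fin m → Bool)) × (Fin (p + 1) → (Fin m → Bool)))).filter
        fun xy => xy.1 j = xy.2 j) ⊆ (univ : Finset (Fin (p + 1) → (Fin m → Bool))).biUnion
          fun x => (univ.filter fun y : Fin (p + 1) → (Fin m → Bool) => y j = x j).image (fun y => (x, y)) := by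
      rintro ⟨x, y⟩ h
      simp only [Finset.mem_filter, Finset.mem_univ, true_and] at h
      simp only [Finset.mem_biUnion, Finset.mem_image, Finset.mem_filter, Finset.mem_univ,
        true_and]
      exact ⟨x, y, h.symm, rfl⟩
    refine (Finset.card_le_card hsub).trans (Finset.card_biUnion_le.trans ?_)
    have : ∀ x ∈ (univ : Finset (Fin (p + 1) → (Fin m → Bool))),
        ((univ.filter fun y : Fin (p + 1) → (Fin m → Bool) => y j = x j).image (fun y => (x, y))).card ≤
          Fintype.card (Fin m → Bool) ^ p := by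
      intro x _
      exact Finset.card_image_le.trans (card_fix p j (x j)).le
    refine (Finset.sum_le_sum this).trans ?_
    simp
  have c2 : ((univ : Finset ((Fin (p + 1) → (Fin m → Bool)) × (Fin (p + 1) → (Fin m → Bool)))).filter
        fun xy => xy.1 0 = fun _ => false).card ≤
      Fintype.card (Fin m → Bool) ^ (p + 1) * Fintype.card (Fin m → Bool) ^ p := by
    have hsub : ((univ : Finset ((Fin (p + 1) → (Fin m → Bool)) × (Fin (p + 1) → (Fin m → Bool)))).filter
        fun xy => xy.1 0 = fun _ => false) ⊆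
        (univ.filter fun y : Fin (p + 1) → (Fin m → Bool) => y 0 = fun _ => false) ×ˢ univ := by
      rintro ⟨x, y⟩ h
      simp only [Finset.mem_filter, Finset.mem_univ, true_and] at h
      simp [h]
    refine (Finset.card_le_card hsub).trans ?_
    rw [Finset.card_product, card_fix]
    simp [mul_comm]
  have c3 : ((univ : Finset ((Fin (p + 1) → (Fin m → Bool)) × (Fin (p + 1) → (Fin m → Bool)))).filter
        fun xy => xy.2 0 = fun _ => false).card ≤
      Fintype.card (Fin m → Bool) ^ (p + 1) * Fintype.card (Fin m → Bool) ^ p := by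
    have hsub : ((univ : Finset ((Fin (p + 1) → (Fin m → Bool)) × (Fin (p + 1) → (Fin m → Bool)))).filter
        fun xy => xy.2 0 = fun _ => false) ⊆
        univ ×ˢ (univ.filter fun y : Fin (p + 1) → (Fin m → Bool) => y 0 = fun _ => false) := by
      rintro ⟨x, y⟩ h
      simp only [Finset.mem_filter, Finset.mem_univ, true_and] at h
      simp [h]
    refine (Finset.card_le_card hsub).trans ?_
    rw [Finset.card_product, card_fix]
    simp
  have hcard : bad.card ≤ (p + 3) * (Fintype.card (Fin m → Bool) ^ (p + 1) * Fintype.card (Fin m → Bool) ^ p) := by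
    refine (Finset.card_le_card hbadsub).trans ?_
    refine (Finset.card_union_le _ _).trans ?_
    have hA : ((univ : Finset (Fin (p + 1))).biUnion fun j =>
        (univ : Finset ((Fin (p + 1) → (Fin m → Bool)) × (Fin (p + 1) → (Fin m → Bool)))).filter
          fun xy => xy.1 j = xy.2 j).card ≤
        (p + 1) * (Fintype.card (Fin m → Bool) ^ (p + 1) * Fintype.card (Fin m → Bool) ^ p) := by
      refine Finset.card_biUnion_le.trans ((Finset.sum_le_sum fun j _ => c1 j).trans ?_)
      simp
    have hB := (Finset.card_union_le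
      ((univ : Finset ((Fin (p + 1) → (Fin m → Bool)) × (Fin (p + 1) → (Fin m → Bool)))).filter
        fun xy => xy.1 0 = fun _ => false)
      ((univ : Finset ((Fin (p + 1) → (Fin m → Bool)) × (Fin (p + 1) → (Fin m → Bool)))).filter
        fun xy => xy.2 0 = fun _ => false)).trans (Nat.add_le_add c2 c3)
    refine (Nat.add_le_add hA hB).trans (le_of_eq ?_)
    ring
  -- averaging
  have hsum : ∑ z : Fin n → Bool, box (p + 1)
      (fun x : Fin (p + 1) → (Fin m → Bool) => sgn (invForm b (placeY e y0 z x))) =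
      (2 : ℝ) ^ n * (bad.card / (Fintype.card (Fin m → Bool) : ℝ) ^ (2 * (p + 1))) := by
    have : ∀ z : Fin n → Bool, box (p + 1)
      (fun x : Fin (p + 1) → (Fin m → Bool) => sgn (invForm b (placeY e y0 z x))) =
      (∑ x : Fin (p + 1) → (Fin m → Bool), ∑ y : Fin (p + 1) → (Fin m → Bool),
        chr b z (fDiff (fList ξ x y) (fun c : K => (c + w)⁻¹))) /
        (Fintype.card (Fin m → Bool) : ℝ) ^ (2 * (p + 1)) := by
      intro z
      rw [hF z]
      exact box_eq (chr b z) (chr_add b z) (p + 1) ξ (fun c : K => (c + w)⁻¹)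
    rw [Finset.sum_congr rfl fun z _ => this z, ← Finset.sum_div, ← mul_div_assoc]
    congr 1
    rw [Finset.sum_comm]
    have h2 : ∀ x : Fin (p + 1) → (Fin m → Bool), ∑ z : Fin n → Bool, ∑ y : Fin (p + 1) → (Fin m → Bool),
        chr b z (fDiff (fList ξ x y) (fun c : K => (c + w)⁻¹)) =
        ∑ y : Fin (p + 1) → (Fin m → Bool),
          if fDiff (fList ξ x y) (fun c : K => (c + w)⁻¹) = 0 then (2 : ℝ) ^ n else 0 := by
      intro x
      rw [Finset.sum_comm]
      exact Finset.sum_congr rfl fun y _ => chr_sum b _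
    rw [Finset.sum_congr rfl fun x _ => h2 x]
    rw [← Fintype.sum_prod_type' (f := fun (x y : Fin (p + 1) → (Fin m → Bool)) =>
      if fDiff (fList ξ x y) (fun c : K => (c + w)⁻¹) = 0 then (2 : ℝ) ^ n else 0)]
    rw [← Finset.sum_filter, Finset.sum_const, nsmul_eq_mul, mul_comm]
  rw [hsum]
  apply mul_le_mul_of_nonneg_left _ (by positivity)
  have h7 : (bad.card : ℝ) ≤ ((p : ℝ) + 3) *
      ((Fintype.card (Fin m → Bool) : ℝ) ^ (p + 1) * (Fintype.card (Fin m → Bool) : ℝ) ^ p) := by
    exact_mod_cast hcard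
  rw [hY] at h7 ⊢
  push_cast at h7 ⊢
  rw [div_le_div_iff₀ (by positivity) (by positivity)]
  calc (bad.card : ℝ) * 2 ^ m ≤ (((p : ℝ) + 3) * (((2 : ℝ) ^ m) ^ (p + 1) * ((2 : ℝ) ^ m) ^ p)) *
        2 ^ m := by
        exact mul_le_mul_of_nonneg_right h7 (by positivity)
    _ = ((p : ℝ) + 3) * ((2 : ℝ) ^ m) ^ (2 * (p + 1)) := by ring

end Pool.Agent.Lib_MP_22d2c8_tw
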