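import Pool.Agent.Lib_MP_22d2c8_tw.Core
import Pool.Agent.Lib_MP_22d2c8_met.Shift

/-!
# Correlation of the hard function with circuits which fall apart
-/

namespace Pool.Agent.Lib_MP_22d2c8_tw

open Finset

theorem exists_isVal {V : Type} (C : Circuit V) (x : V → Bool) : ∃ v, C.IsVal x v := by
  classical
  have key : ∀ k : ℕ, ∃ v : Fin C.size → Bool, ∀ g : Fin C.size, g.val < k →
      v g = C.op g (C.srcVal x v (C.src1 g)) (C.srcVal x v (C.src2 g)) := by
    intro k
    induction k with
    | zero => exact ⟨fun _ => false, fun g hg => absurd hg (Nat.not_lt_zero _)⟩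
    | succ k ih =>
      obtain ⟨v, hv⟩ := ih
      by_cases hk : k < C.size
      · let g0 : Fin C.size := ⟨k, hk⟩
        refine ⟨Function.update v g0
          (C.op g0 (C.srcVal x v (C.src1 g0)) (C.srcVal x v (C.src2 g0))), ?_⟩
        have hsrc : ∀ (g : Fin C.size) (s : V ⊕ Fin C.size), g.val ≤ k →
            (∀ h, s = Sum.inr h → h < g) →
            C.srcVal x (Function.update v g0
              (C.op g0 (C.srcVal x v (C.src1 g0)) (C.srcVal x v (C.src2 g0)))) s =
              C.srcVal x v s := by
          intro g s hg hs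
          cases s with
          | inl i => rfl
          | inr h =>
            have h1 : h.val < g.val := hs h rfl
            have h2 : h ≠ g0 := by
              intro h3
              rw [h3] at h1
              have : g0.val = k := rfl
              omega
            show Function.update v g0 _ h = v h
            rw [Function.update_of_ne h2]
        intro g hg
        rw [hsrc g _ (by omega) (C.src1_lt g), hsrc g _ (by omega) (C.src2_lt g)]
        by_cases hgg : g = g0
        · rw [hgg, Function.update_self]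
        · rw [Function.update_of_ne hgg]
          apply hv
          have : g.val ≠ k := fun h => hgg (Fin.ext h)
          omega
      · exact ⟨v, fun g _ => hv g (by have := g.2; omega)⟩
  obtain ⟨v, hv⟩ := key C.size
  exact ⟨v, fun g => hv g g.2⟩

/-- The function computed by a circuit. -/
noncomputable def outF {V : Type} (C : Circuit V) (x : V → Bool) : Bool :=
  (exists_isVal C x).choose C.out

theorem computes_outF {V : Type} (C : Circuit V) : C.Computes (outF C) := fun x =>
  ⟨(exists_isVal C x).choose, (exists_isVal C x).choose_spec, rfl⟩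

/-- Overwriting the block coordinates is a measure preserving operation. -/
theorem sum_extend {n q m : ℕ} (e : Fin q × Fin m → Fin n) (he : Function.Injective e)
    (H : (Fin n → Bool) → ℝ) :
    ∑ y : Fin n → Bool, ∑ x : Fin q → Fin m → Bool,
      H (Function.extend e (fun ja => x ja.1 ja.2) y) =
      (Fintype.card (Fin q → Fin m → Bool) : ℝ) * ∑ y, H y := by
  classical
  let Φ : (Fin n → Bool) × (Fin q → Fin m → Bool) → (Fin n → Bool) × (Fin q → Fin m → Bool) :=
    fun yx => (Function.extend e (fun ja => yx.2 ja.1 ja.2) yx.1, fun j a => yx.1 (e (j, a)))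
  have hΦ : Function.Involutive Φ := by
    rintro ⟨y, x⟩
    apply Prod.ext
    · show Function.extend e (fun ja => y (e (ja.1, ja.2)))
        (Function.extend e (fun ja => x ja.1 ja.2) y) = y
      funext i
      by_cases hi : ∃ ja, e ja = i
      · obtain ⟨ja, rfl⟩ := hi
        rw [he.extend_apply]
      · rw [Function.extend_apply' _ _ _ hi, Function.extend_apply' _ _ _ hi]
    · show (fun j a => Function.extend e (fun ja => x ja.1 ja.2) y (e (j, a))) = x
      funext j a
      rw [he.extend_apply]
  rw [← Fintype.sum_prod_type' (f := fun (y : Fin n → Bool) (x : Fin q → Fin m → Bool) =>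
    H (Function.extend e (fun ja => x ja.1 ja.2) y))]
  have h1 := Equiv.sum_comp (hΦ.toPerm Φ)
    (fun yx : (Fin n → Bool) × (Fin q → Fin m → Bool) => H yx.1)
  have h2 : ∑ yx : (Fin n → Bool) × (Fin q → Fin m → Bool), H yx.1 =
      (Fintype.card (Fin q → Fin m → Bool) : ℝ) * ∑ y, H y := by
    rw [Fintype.sum_prod_type]
    simp only [sum_const, card_univ, nsmul_eq_mul]
    rw [mul_sum]
  rw [← h2, ← h1]
  rfl

theorem sum_inputs {n : ℕ} (H : (Fin n ⊕ Fin n → Bool) → ℝ) :
    ∑ x, H x = ∑ z : Fin n → Bool, ∑ y : Fin n → Bool, H (Sum.elim y z) := by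
  rw [← Equiv.sum_comp (Equiv.sumArrowEquivProdArrow (Fin n) (Fin n) Bool).symm H,
    Fintype.sum_prod_type_right]
  rfl

theorem placeY_eq {n p m : ℕ} (e : Fin p × Fin m → Fin n) (y z : Fin n → Bool)
    (x : Fin p → Fin m → Bool) :
    placeY e y z x = Sum.elim (Function.extend e (fun ja => x ja.1 ja.2) y) z := by
  funext v
  cases v <;> rfl

theorem core_avg {n : ℕ} {K : Type} [Field K] [Algebra (ZMod 2) K]
    (b : Module.Basis (Fin n) (ZMod 2) K) (C : Circuit (Fin n ⊕ Fin n))
    (gC : (Fin n ⊕ Fin n → Bool) → Bool) (hC : C.Computes gC)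
    (δ : ℝ) (hδ0 : 0 ≤ δ)
    (hδ : δ * 2 ^ (2 * n) ≤ ∑ x, sgn (invForm b x) * sgn (gC x))
    (S : Finset (Fin C.size)) (comp : Fin C.size → Fin C.size)
    (L p m : ℕ) (hp : 1 ≤ p)
    (hcomp : ∀ u v, u ∉ S → v ∉ S → C.graph.Adj u v → comp u = comp v)
    (hL : ∀ q, ∑ v ∈ univ.filter (fun v => v ∉ S ∧ comp v = q), C.wt v ≤ L)
    (hn : 0 < n)
    (μ : ℝ) (hμ0 : 0 ≤ μ)
    (hμ : μ ≤ (n : ℝ) * (2 : ℝ) ^ (-(2 * (C.reads : ℝ) / ((p + 1) * n))))
    (hbig : 4 * ((p : ℝ) + 1) * L * C.reads < μ ^ 2)
    (hm : ((p : ℝ) + 1) * m + 2 * S.card ≤ μ / 2) :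
    δ ^ (2 ^ (p + 1)) * (2 : ℝ) ^ m ≤ ((p : ℝ) + 3) * 2 ^ ((3 * S.card + 1) * 2 ^ (p + 1)) := by
  classical
  -- the colouring
  obtain ⟨χ, hχ⟩ := exists_colouring (frags C S comp) (p + 1) (by omega) C.reads L
    (sum_frags_le C S comp) (card_mem_frags_le C S comp L hL) μ hμ0
    (by
      refine hμ.trans ?_
      have h := mean_lower (fun i : Fin n => (frags C S comp i).card) (p + 1) (by omega)
        C.reads (sum_frags_le C S comp) (by simpa using hn)
      rw [Fintype.card_fin] at h
      refine le_trans (le_of_eq ?_) h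
      congr 2
      push_cast
      ring)
    (by
      push_cast
      exact hbig)
  let G : Fin (p + 1) → Finset (Fin n) := fun j =>
    (univ.filter fun i => ∀ q ∈ frags C S comp i, χ q ≠ j) \ sepVars C S
  have hG : ∀ j, (p + 1) * m ≤ (G j).card := by
    intro j
    have h1 := hχ j
    have h2 := le_card_sdiff (sepVars C S) (univ.filter fun i => ∀ q ∈ frags C S comp i, χ q ≠ j)
    have h3 := card_sepVars_le C S
    have h4 : (univ.filter fun i => ∀ q ∈ frags C S comp i, χ q ≠ j).card ≤
        (G j).card + 2 * S.card := by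
      show _ ≤ ((univ.filter fun i => ∀ q ∈ frags C S comp i, χ q ≠ j) \ sepVars C S).card + _
      omega
    have h5 : (((univ.filter fun i => ∀ q ∈ frags C S comp i, χ q ≠ j).card : ℕ) : ℝ) ≤
        (G j).card + 2 * S.card := by exact_mod_cast h4
    have h1' : μ / 2 ≤ (((univ.filter fun i => ∀ q ∈ frags C S comp i, χ q ≠ j).card : ℕ) : ℝ) := by
      convert h1
    have h6 : ((p : ℝ) + 1) * m ≤ (G j).card := by linarith
    exact_mod_cast h6
  obtain ⟨e, he, heG⟩ := exists_disjoint_sub (p + 1) m G hG
  have hfr : ∀ g i, g ∉ S → C.Reads g (Sum.inl i) → comp g ∈ frags C S comp i := by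
    intro g i hg hr
    unfold frags
    rw [mem_image]
    exact ⟨g, by simp [hg, hr], rfl⟩
  have hsep : ∀ g i, g ∈ S → C.Reads g (Sum.inl i) → i ∈ sepVars C S := by
    intro g i hg hr
    unfold sepVars
    rw [mem_biUnion]
    exact ⟨g, hg, by simp [hr]⟩
  set N : ℝ := (Fintype.card (Fin m → Bool) : ℝ) ^ (p + 1) with hN
  have hNpos : 0 < N := by positivity
  set Q : ℝ := 2 ^ (3 * S.card + 1) with hQ
  have hQpos : 0 < Q := by positivity
  -- the correlation on a subcube
  let corr : (Fin n → Bool) → (Fin n → Bool) → ℝ := fun y z =>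
    (∑ x : Fin (p + 1) → (Fin m → Bool), sgn (invForm b (placeY e y z x)) *
      sgn (gC (placeY e y z x))) / N
  have hcorr : ∀ y z, (|corr y z| / Q) ^ (2 ^ (p + 1)) ≤ box (p + 1)
      (fun x : Fin (p + 1) → (Fin m → Bool) => sgn (invForm b (placeY e y z x))) := by
    intro y z
    obtain ⟨A, hA, c, φ, hcard, hc, hφ1, hφ, hsum⟩ := circuit_sum C (p + 1) S
      (fun g => χ (comp g))
      (fun g h hg hh hadj => by rw [hcomp g h hg hh hadj])
      (fun x : Fin (p + 1) → (Fin m → Bool) => placeY e y z x)
      (by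
        intro g v hg hr x x' hxx
        cases v with
        | inr k => rfl
        | inl i =>
          by_cases hi : ∃ ja, e ja = i
          · obtain ⟨ja, rfl⟩ := hi
            have h1 := heG ja
            have h2 : ∀ q ∈ frags C S comp (e ja), χ q ≠ ja.1 := by
              have := (mem_sdiff.1 h1).1
              rw [mem_filter] at this
              exact this.2
            have h3 := h2 _ (hfr g (e ja) hg hr)
            have h4 := hxx ja.1 (fun h => h3 h.symm)
            simp only [placeY]
            rw [he.extend_apply, he.extend_apply, h4]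
          · simp only [placeY]
            rw [Function.extend_apply' _ _ _ hi, Function.extend_apply' _ _ _ hi])
      (by
        intro g v hg hr x x'
        cases v with
        | inr k => rfl
        | inl i =>
          have hi : ¬ ∃ ja, e ja = i := by
            rintro ⟨ja, rfl⟩
            exact (mem_sdiff.1 (heG ja)).2 (hsep g _ hg hr)
          simp only [placeY]
          rw [Function.extend_apply' _ _ _ hi, Function.extend_apply' _ _ _ hi])
      gC hC
    set F : (Fin (p + 1) → (Fin m → Bool)) → ℝ := fun x => sgn (invForm b (placeY e y z x)) with hF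
    have hdec : corr y z = ∑ a, c a * ((∑ x, F x * ∏ j, φ a j x) / N) := by
      have h2 : ∑ x, F x * sgn (gC (placeY e y z x)) = ∑ a, c a * (∑ x, F x * ∏ j, φ a j x) := by
        calc ∑ x, F x * sgn (gC (placeY e y z x)) = ∑ x, F x * ∑ a, c a * ∏ j, φ a j x := by
              apply sum_congr rfl
              intro x _
              congr 1
              exact hsum x
          _ = ∑ x, ∑ a, c a * (F x * ∏ j, φ a j x) := by
              apply sum_congr rfl
              intro x _
              rw [mul_sum]
              apply sum_congr rfl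
              intro a _
              ring
          _ = ∑ a, ∑ x, c a * (F x * ∏ j, φ a j x) := sum_comm
          _ = ∑ a, c a * (∑ x, F x * ∏ j, φ a j x) := by
              apply sum_congr rfl
              intro a _
              rw [mul_sum]
      show (∑ x, F x * sgn (gC (placeY e y z x))) / N = _
      rw [h2, sum_div]
      apply sum_congr rfl
      intro a _
      ring
    have hbox : ∀ a, |(∑ x, F x * ∏ j, φ a j x) / N| ^ (2 ^ (p + 1)) ≤ box (p + 1) F := by
      intro a
      have := corr_le_box p F (φ a) (hφ1 a) (hφ a)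
      rwa [← hN] at this
    rcases isEmpty_or_nonempty A with hemp | hne
    · have h0 : corr y z = 0 := by rw [hdec, Fintype.sum_empty]
      rw [h0, abs_zero, zero_div, zero_pow (by positivity)]
      have := corr_le_box p F (fun _ _ => 0) (fun _ _ => by simp) (fun _ _ _ _ => rfl)
      refine le_trans ?_ this
      positivity
    · obtain ⟨a, ha⟩ : ∃ a, |corr y z| / Q ≤ |(∑ x, F x * ∏ j, φ a j x) / N| := by
        by_contra hcon
        push Not at hcon
        have h1 : |corr y z| < ∑ a : A, |corr y z| / Q := by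
          have h2 : |corr y z| ≤ ∑ a, |(∑ x, F x * ∏ j, φ a j x) / N| := by
            rw [hdec]
            refine (abs_sum_le_sum_abs _ _).trans (sum_le_sum fun a _ => ?_)
            rw [abs_mul]
            calc |c a| * |(∑ x, F x * ∏ j, φ a j x) / N|
                ≤ 1 * |(∑ x, F x * ∏ j, φ a j x) / N| :=
                  mul_le_mul_of_nonneg_right (hc a) (abs_nonneg _)
              _ = _ := one_mul _
          exact lt_of_le_of_lt h2 (sum_lt_sum_of_nonempty univ_nonempty fun a _ => hcon a)
        rw [sum_const, card_univ, nsmul_eq_mul] at h1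
        have h2 : (Fintype.card A : ℝ) ≤ Q := by rw [hQ]; exact_mod_cast hcard
        have h3 : (Fintype.card A : ℝ) * (|corr y z| / Q) ≤ Q * (|corr y z| / Q) :=
          mul_le_mul_of_nonneg_right h2 (by positivity)
        rw [mul_div_cancel₀ _ hQpos.ne'] at h3
        linarith
      exact (pow_le_pow_left₀ (by positivity) ha _).trans (hbox a)
  -- averaging over the subcubes
  have htot : ∑ z : Fin n → Bool, ∑ y : Fin n → Bool, corr y z =
      ∑ x, sgn (invForm b x) * sgn (gC x) := by
    rw [sum_inputs (fun x => sgn (invForm b x) * sgn (gC x))]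
    refine sum_congr rfl fun z _ => ?_
    have h1 := sum_extend e he (fun y : Fin n → Bool =>
      sgn (invForm b (Sum.elim y z)) * sgn (gC (Sum.elim y z)))
    have h2 : (Fintype.card (Fin (p + 1) → Fin m → Bool) : ℝ) = N := by
      rw [hN, Fintype.card_fun (α := Fin (p + 1))]
      push_cast
      rw [Fintype.card_fin]
    rw [h2] at h1
    show ∑ y : Fin n → Bool, (∑ x : Fin (p + 1) → (Fin m → Bool),
      sgn (invForm b (placeY e y z x)) * sgn (gC (placeY e y z x))) / N = _
    rw [← sum_div]
    simp only [placeY_eq]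
    rw [h1, mul_div_cancel_left₀ _ hNpos.ne']
  set P2 : ℝ := (2 : ℝ) ^ (2 * n) with hP2
  have hP2pos : 0 < P2 := by positivity
  have hcardyz : (((univ : Finset ((Fin n → Bool) × (Fin n → Bool))).card : ℕ) : ℝ) = P2 := by
    rw [card_univ, Fintype.card_prod, hP2]
    simp
    ring
  -- power mean
  obtain ⟨k, hk⟩ : ∃ k, (2 : ℕ) ^ (p + 1) = k + 1 :=
    ⟨2 ^ (p + 1) - 1, by have := Nat.one_le_two_pow (n := p + 1); omega⟩
  have hpm := pow_sum_div_card_le_sum_pow (s := (univ : Finset ((Fin n → Bool) × (Fin n → Bool))))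
    (f := fun zy => |corr zy.2 zy.1| / Q) (fun _ _ => by positivity) k
  rw [hcardyz] at hpm
  have hsumle : δ * P2 / Q ≤
      ∑ zy : (Fin n → Bool) × (Fin n → Bool), |corr zy.2 zy.1| / Q := by
    rw [← sum_div]
    apply div_le_div_of_nonneg_right _ hQpos.le
    refine hδ.trans ?_
    rw [← htot, ← Fintype.sum_prod_type' (f := fun (z : Fin n → Bool) (y : Fin n → Bool) =>
      corr y z)]
    exact sum_le_sum fun zy _ => le_abs_self _
  have hpow : ∑ zy : (Fin n → Bool) × (Fin n → Bool), (|corr zy.2 zy.1| / Q) ^ (k + 1) ≤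
      P2 * (((p : ℝ) + 3) / 2 ^ m) := by
    rw [← hk]
    refine (sum_le_sum fun zy _ => hcorr zy.2 zy.1).trans ?_
    rw [Fintype.sum_prod_type_right]
    refine (sum_le_sum fun y _ => sum_box_le b p m e he y).trans ?_
    rw [sum_const, card_univ, nsmul_eq_mul]
    apply le_of_eq
    rw [hP2]
    simp
    ring
  have h1 : (δ * P2 / Q) ^ (k + 1) / P2 ^ k ≤ P2 * (((p : ℝ) + 3) / 2 ^ m) := by
    refine le_trans ?_ (hpm.trans hpow)
    apply div_le_div_of_nonneg_right _ (by positivity)
    exact pow_le_pow_left₀ (by positivity) hsumle _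
  have h2 : (δ * P2 / Q) ^ (k + 1) / P2 ^ k = P2 * (δ / Q) ^ (k + 1) := by
    rw [div_eq_iff (by positivity), div_pow, mul_pow, div_pow]
    field_simp
    ring
  rw [h2] at h1
  have h3 : (δ / Q) ^ (k + 1) ≤ ((p : ℝ) + 3) / 2 ^ m := le_of_mul_le_mul_left h1 hP2pos
  rw [div_pow, div_le_div_iff₀ (by positivity) (by positivity), ← hk] at h3
  rw [pow_mul, ← hQ]
  exact h3

end Pool.Agent.Lib_MP_22d2c8_tw
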