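import Pool.Agent.Lib_MP_22d2c8_tw.Final
import Pool.Agent.Lib_MP_22d2c8_met.CoreAvg

/-!
# Circuits which fall apart after deleting few gates
-/

namespace Pool.Agent.Lib_MP_22d2c8_tw

open Finset

/-- If after deleting the gates in `S` every component reads at most `L` inputs, and the circuit has
correlation at least `2 ^ (-Δ)` with the hard function, then it reads inputs many times. -/
theorem reads_of_cut {n : ℕ} {K : Type} [Field K] [Algebra (ZMod 2) K]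
    (b : Module.Basis (Fin n) (ZMod 2) K) (C : Circuit (Fin n ⊕ Fin n))
    (gC : (Fin n ⊕ Fin n → Bool) → Bool) (hC : C.Computes gC)
    (Δ : ℝ) (hΔ : 0 ≤ Δ)
    (hcorr : (2 : ℝ) ^ (-Δ) * 2 ^ (2 * n) ≤ ∑ x, sgn (invForm b x) * sgn (gC x))
    (hreads : (n : ℝ) ≤ 2 * C.reads)
    (S : Finset (Fin C.size)) (comp : Fin C.size → Fin C.size)
    (L : ℕ) (hcomp : ∀ u v, u ∉ S → v ∉ S → C.graph.Adj u v → comp u = comp v)
    (hfrag : ∀ q, ∑ v ∈ univ.filter (fun v => v ∉ S ∧ comp v = q), C.wt v ≤ L)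
    (D : ℝ) (hD : 1 + (S.card : ℝ) + L + Δ ≤ D) (hDn : D ≤ n) :
    (n : ℝ) * (Real.logb 2 ((n : ℝ) / D)) ^ 2 ≤ 4096 * C.reads := by
  classical
  by_contra hcon
  push Not at hcon
  set s : ℝ := (C.reads : ℝ) / 2 with hs
  have hR2 : (C.reads : ℝ) = 2 * s := by rw [hs]; ring
  rw [hR2] at hcon
  set ℓ : ℝ := Real.logb 2 ((n : ℝ) / D) with hℓ
  set q : ℝ := (S.card : ℝ) with hq
  have hq0 : 0 ≤ q := Nat.cast_nonneg _
  have hL0 : (0 : ℝ) ≤ L := Nat.cast_nonneg _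
  have hDR : (1 : ℝ) ≤ D := by linarith
  have hDpos : (0 : ℝ) < D := by linarith
  have hnR : (0 : ℝ) < n := by linarith
  have hn : 0 < n := by exact_mod_cast hnR
  have hratio : 1 ≤ (n : ℝ) / D := by
    rw [le_div_iff₀ hDpos]; linarith
  have hℓ0 : 0 ≤ ℓ := Real.logb_nonneg (by norm_num) hratio
  have hsn : (n : ℝ) ≤ 4 * s := by linarith
  have hspos : 0 < s := by linarith
  -- ℓ is large
  have hℓ45 : 45 < ℓ := by
    by_contra h
    push Not at h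
    have h1 : ℓ ^ 2 ≤ 2025 := by nlinarith
    have h2 : (n : ℝ) * ℓ ^ 2 ≤ n * 2025 := mul_le_mul_of_nonneg_left h1 hnR.le
    linarith
  set P : ℕ := ⌈ℓ / 8⌉₊ with hP
  have hPge : ℓ / 8 ≤ P := Nat.le_ceil _
  have hPlt : (P : ℝ) < ℓ / 8 + 1 := Nat.ceil_lt_add_one (by positivity)
  have hP6 : 6 ≤ P := by
    have : (5 : ℝ) < P := by linarith
    have : 5 < P := by exact_mod_cast this
    omega
  have hPR6 : (6 : ℝ) ≤ P := by exact_mod_cast hP6
  have hPpos : (0 : ℝ) < P := by linarith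
  obtain ⟨p, hp⟩ : ∃ p, P = p + 1 := ⟨P - 1, by omega⟩
  have hpR : (P : ℝ) = (p : ℝ) + 1 := by rw [hp]; push_cast; ring
  -- size upper bound
  have h64 : 64 * s < n * (P : ℝ) ^ 2 := by
    have h1 : ℓ ^ 2 ≤ (8 * (P : ℝ)) ^ 2 := by
      apply pow_le_pow_left₀ hℓ0
      linarith
    have h2 : (n : ℝ) * ℓ ^ 2 ≤ n * (8 * (P : ℝ)) ^ 2 := mul_le_mul_of_nonneg_left h1 hnR.le
    nlinarith
  -- n is large
  have hnbig : D * 256 ^ P < 256 * n := by
    have h1 : (8 : ℝ) * (P - 1) < ℓ := by linarith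
    have h2 : (2 : ℝ) ^ ((8 : ℝ) * ((P : ℝ) - 1)) < (n : ℝ) / D := by
      rw [hℓ] at h1
      exact (Real.lt_logb_iff_rpow_lt (by norm_num) (by positivity)).1 h1
    have h3 : (2 : ℝ) ^ ((8 : ℝ) * ((P : ℝ) - 1)) = 256 ^ P / 256 := by
      have : (8 : ℝ) * ((P : ℝ) - 1) = ((8 * P : ℕ) : ℝ) - ((8 : ℕ) : ℝ) := by push_cast; ring
      rw [this, Real.rpow_sub (by norm_num), Real.rpow_natCast, Real.rpow_natCast, pow_mul]
      norm_num
    rw [h3, lt_div_iff₀ hDpos] at h2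
    linarith
  -- parameters
  set μ : ℝ := (n : ℝ) / 2 ^ P with hμ
  have hμpos : 0 < μ := by positivity
  have hkey : (32 : ℝ) * (P : ℝ) ^ 6 ≤ 16 ^ P := by exact_mod_cast pow_aux P hP6
  have h16 : (0 : ℝ) < 16 ^ P := by positivity
  have h256 : (256 : ℝ) ^ P = 16 ^ P * 16 ^ P := by rw [← mul_pow]; norm_num
  have h16' : (16 : ℝ) ^ P = 2 ^ P * 2 ^ P * (2 ^ P * 2 ^ P) := by
    rw [← mul_pow, ← mul_pow]; norm_num
  have h2P : (0 : ℝ) < 2 ^ P := by positivity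
  have h2P64 : (64 : ℝ) ≤ 2 ^ P := by
    have : (2 : ℝ) ^ 6 ≤ 2 ^ P := pow_le_pow_right₀ (by norm_num) hP6
    norm_num at this
    exact this
  -- the basic estimate: D P^6 16^P ≤ 8 n
  have hn1 : D * (P : ℝ) ^ 6 * 16 ^ P ≤ 8 * n := by
    have h1 : D * ((P : ℝ) ^ 6 * 32 * 16 ^ P) ≤ D * (16 ^ P * 16 ^ P) := by
      apply mul_le_mul_of_nonneg_left _ hDpos.le
      apply mul_le_mul_of_nonneg_right _ h16.le
      linarith
    rw [← h256] at h1
    nlinarith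
  have hP1 : (1 : ℝ) ≤ P := by linarith
  have hP5 : (128 : ℝ) ≤ (P : ℝ) ^ 5 := by
    have : (6 : ℝ) ^ 5 ≤ (P : ℝ) ^ 5 := pow_le_pow_left₀ (by norm_num) hPR6 5
    norm_num at this
    linarith
  -- the main inequality
  have hmain : 8 * (q + Δ + 1) * (P * 2 ^ P) ≤ μ := by
    rw [hμ, le_div_iff₀ h2P]
    have h1 : q + Δ + 1 ≤ D := by linarith
    have h4 : 8 * (8 * (q + Δ + 1) * (P * 2 ^ P) * 2 ^ P) ≤ D * (P : ℝ) ^ 6 * 16 ^ P := by
      have h5 : 64 * ((q + Δ + 1) * (P * (2 ^ P * 2 ^ P))) ≤ 64 * (D * (P * (2 ^ P * 2 ^ P))) := by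
        apply mul_le_mul_of_nonneg_left _ (by norm_num)
        exact mul_le_mul_of_nonneg_right h1 (by positivity)
      have h6 : 64 * (D * (P * (2 ^ P * 2 ^ P))) ≤
          D * (P * (2 ^ P * 2 ^ P)) * ((P : ℝ) ^ 5 * (2 ^ P * 2 ^ P)) := by
        have h7 : (64 : ℝ) ≤ (P : ℝ) ^ 5 * (2 ^ P * 2 ^ P) := by
          have : (1 : ℝ) ≤ 2 ^ P * 2 ^ P := by nlinarith
          nlinarith
        calc 64 * (D * (P * (2 ^ P * 2 ^ P))) = D * (P * (2 ^ P * 2 ^ P)) * 64 := by ring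
          _ ≤ _ := mul_le_mul_of_nonneg_left h7 (by positivity)
      calc 8 * (8 * (q + Δ + 1) * (P * 2 ^ P) * 2 ^ P) =
            64 * ((q + Δ + 1) * (P * (2 ^ P * 2 ^ P))) := by
            ring
        _ ≤ _ := h5
        _ ≤ _ := h6
        _ = D * (P : ℝ) ^ 6 * 16 ^ P := by rw [h16']; ring
    linarith
  -- the bound for the components
  have hLT : 8 * P * s * L < μ ^ 2 := by
    have h1 : (L : ℝ) ≤ D := by linarith
    have h2 : 8 * P * s * L ≤ (P : ℝ) * (64 * s) * D / 8 := by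
      have : 8 * P * s * L ≤ 8 * P * s * D := mul_le_mul_of_nonneg_left h1 (by positivity)
      linarith
    have h3 : (P : ℝ) * (64 * s) * D / 8 < P * (n * (P : ℝ) ^ 2) * D / 8 := by
      apply div_lt_div_of_pos_right _ (by norm_num)
      apply mul_lt_mul_of_pos_right _ hDpos
      exact mul_lt_mul_of_pos_left h64 hPpos
    have h4 : P * (n * (P : ℝ) ^ 2) * D / 8 ≤ μ ^ 2 := by
      rw [hμ, div_pow, le_div_iff₀ (by positivity)]
      have h5 : D * (P : ℝ) ^ 3 * (2 ^ P * 2 ^ P) ≤ D * (P : ℝ) ^ 6 * 16 ^ P := by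
        rw [h16']
        have h6 : (P : ℝ) ^ 3 ≤ (P : ℝ) ^ 6 := pow_le_pow_right₀ hP1 (by norm_num)
        have h7 : (2 : ℝ) ^ P * 2 ^ P ≤ 2 ^ P * 2 ^ P * (2 ^ P * 2 ^ P) := by
          have : (1 : ℝ) ≤ 2 ^ P * 2 ^ P := by nlinarith
          exact le_mul_of_one_le_right (by positivity) this
        calc D * (P : ℝ) ^ 3 * (2 ^ P * 2 ^ P) ≤ D * (P : ℝ) ^ 6 * (2 ^ P * 2 ^ P) :=
              mul_le_mul_of_nonneg_right (mul_le_mul_of_nonneg_left h6 hDpos.le) (by positivity)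
          _ ≤ _ := mul_le_mul_of_nonneg_left h7 (by positivity)
      have h8 : D * (P : ℝ) ^ 3 * (2 ^ P * 2 ^ P) ≤ 8 * n := h5.trans hn1
      calc P * (n * (P : ℝ) ^ 2) * D / 8 * (2 ^ P) ^ 2
          = (n : ℝ) / 8 * (D * (P : ℝ) ^ 3 * (2 ^ P * 2 ^ P)) := by ring
        _ ≤ (n : ℝ) / 8 * (8 * n) := mul_le_mul_of_nonneg_left h8 (by positivity)
        _ = (n : ℝ) ^ 2 := by ring
    linarith
  -- the block size
  have hPP : (1 : ℝ) ≤ P * 2 ^ P := by nlinarith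
  have hq4 : 4 * q ≤ μ := by
    have : 8 * (q + Δ + 1) * 1 ≤ 8 * (q + Δ + 1) * (P * 2 ^ P) :=
      mul_le_mul_of_nonneg_left hPP (by linarith)
    linarith
  set m : ℕ := ⌊(μ / 2 - 2 * q) / P⌋₊ with hm
  have hmle : (m : ℝ) ≤ (μ / 2 - 2 * q) / P := Nat.floor_le (by
    apply div_nonneg _ hPpos.le
    linarith)
  have hmgt : (μ / 2 - 2 * q) / P < m + 1 := Nat.lt_floor_add_one _
  have hcore := core_avg b C gC hC ((2 : ℝ) ^ (-Δ)) (by positivity) hcorr S comp L p m (by omega)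
    hcomp hfrag hn μ hμpos.le
    (by
      rw [← hpR, hμ, div_eq_mul_inv]
      apply mul_le_mul_of_nonneg_left _ hnR.le
      have h1 : ((2 : ℝ) ^ P)⁻¹ = (2 : ℝ) ^ (-(P : ℝ)) := by
        rw [Real.rpow_neg (by norm_num), Real.rpow_natCast]
      rw [h1]
      apply Real.rpow_le_rpow_of_exponent_le (by norm_num)
      rw [neg_le_neg_iff, div_le_iff₀ (by positivity), hR2]
      nlinarith)
    (by
      rw [← hpR, hR2]
      calc 4 * (P : ℝ) * L * (2 * s) = 8 * P * s * L := by ring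
        _ < μ ^ 2 := hLT)
    (by
      rw [← hpR]
      rw [le_div_iff₀ hPpos] at hmle
      linarith)
  -- conclusion
  have hexpR : (m : ℝ) ≤ P + (3 * q + 1 + Δ) * 2 ^ P := by
    rw [← hp] at hcore
    have h0 : ((2 : ℝ) ^ (-Δ)) ^ (2 ^ P) = (2 : ℝ) ^ (-(Δ * 2 ^ P)) := by
      rw [← Real.rpow_natCast, ← Real.rpow_mul (by norm_num)]
      congr 1
      push_cast
      ring
    have h2 : ((P + 2 : ℕ) : ℝ) ≤ ((2 ^ P : ℕ) : ℝ) := by exact_mod_cast two_pow_aux P hP6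
    have h3 : (p : ℝ) + 3 ≤ 2 ^ P := by
      push_cast at h2
      linarith
    have h4 : (2 : ℝ) ^ (-(Δ * 2 ^ P)) * 2 ^ m ≤ 2 ^ P * 2 ^ ((3 * S.card + 1) * 2 ^ P) := by
      rw [← h0]
      exact hcore.trans (mul_le_mul_of_nonneg_right h3 (by positivity))
    have h5 : (2 : ℝ) ^ (-(Δ * 2 ^ P) + m) ≤
        (2 : ℝ) ^ ((P : ℝ) + (3 * q + 1) * 2 ^ P) := by
      rw [Real.rpow_add (by norm_num), Real.rpow_add (by norm_num), Real.rpow_natCast,
        Real.rpow_natCast]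
      refine h4.trans (le_of_eq ?_)
      congr 1
      rw [← Real.rpow_natCast]
      congr 1
      push_cast
      rw [hq]
    have h6 := (Real.rpow_le_rpow_left_iff (by norm_num : (1 : ℝ) < 2)).1 h5
    linarith
  rw [div_lt_iff₀ hPpos] at hmgt
  have h1 : (m + 1 : ℝ) * P ≤ (P + (3 * q + 1 + Δ) * 2 ^ P + 1) * P :=
    mul_le_mul_of_nonneg_right (by linarith) hPpos.le
  have h2 : (P : ℝ) + 1 ≤ 2 ^ P := by
    have h2 : ((P + 2 : ℕ) : ℝ) ≤ ((2 ^ P : ℕ) : ℝ) := by exact_mod_cast two_pow_aux P hP6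
    push_cast at h2
    linarith
  have h3 : (P + 1 : ℝ) * P ≤ 2 ^ P * P := mul_le_mul_of_nonneg_right h2 hPpos.le
  have h4 : 2 * q ≤ q * (P * 2 ^ P) := by
    have : (2 : ℝ) ≤ P * 2 ^ P := by nlinarith
    nlinarith
  have hPP0 : (0 : ℝ) < P * 2 ^ P := by positivity
  have h5 : μ / 2 < 4 * (q + Δ + 1) * (P * 2 ^ P) := by
    calc μ / 2 < (m + 1) * P + 2 * q := by linarith
      _ ≤ (P + (3 * q + 1 + Δ) * 2 ^ P + 1) * P + q * (P * 2 ^ P) := by linarith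
      _ = (P + 1) * P + (4 * q + 1 + Δ) * (P * 2 ^ P) := by ring
      _ ≤ 2 ^ P * P + (4 * q + 1 + Δ) * (P * 2 ^ P) := by linarith
      _ = (4 * q + 2 + Δ) * (P * 2 ^ P) := by ring
      _ ≤ 4 * (q + Δ + 1) * (P * 2 ^ P) := by
        apply mul_le_mul_of_nonneg_right _ hPP0.le
        linarith
  linarith

end Pool.Agent.Lib_MP_22d2c8_tw
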