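import Pool.Agent.Lib_MP_22d2c8_tw.Defs

/-!
# Circuits placed in a metric space
-/

namespace Pool.Agent.Lib_MP_22d2c8_tw

open Finset NNReal

namespace Circuit

/-- The number of inputs on which the output of the circuit is the value of `f`. -/
noncomputable def agreement {V : Type} [Fintype V] (C : Circuit V) (f : (V → Bool) → Bool) : ℕ := by
  classical
  exact (univ.filter fun x : V → Bool => ∃ v, C.IsVal x v ∧ v C.out = f x).card

variable {V X : Type} [PseudoMetricSpace X]

/-- The gates of `C` are placed at the points `pos g` of a metric space. `C.reach pos g` is the
distance from the gate `g` to its farthest reader (a gate which has `g` as a source), and `0` if no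
gate reads `g`. Several gates may be placed at the same point; the inputs are not placed. -/
noncomputable def reach (C : Circuit V) (pos : Fin C.size → X) (g : Fin C.size) : ℝ≥0 := by
  classical
  exact (univ.filter fun h => C.src1 h = Sum.inr g ∨ C.src2 h = Sum.inr g).sup
    fun h => nndist (pos g) (pos h)

/-- The number of times the gates placed at distance at most `ρ` from the point `x` read an input
variable. It is at most twice the number of these gates. -/
noncomputable def readsNear (C : Circuit V) (pos : Fin C.size → X) (x : X) (ρ : ℝ) : ℕ := by
  classical
  exact (univ.filter fun g => dist (pos g) x ≤ ρ ∧ (C.src1 g).isLeft).card +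
    (univ.filter fun g => dist (pos g) x ≤ ρ ∧ (C.src2 g).isLeft).card

end Circuit

end Pool.Agent.Lib_MP_22d2c8_tw
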