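import Pool.Agent.Lib_MP_22d2c8_met.Main

/-!
# Charging the wires of a circuit for their length

The gates of a circuit are placed at points of a metric space and every gate pays `1` plus a charge
for the distance to its farthest reader. If all balls of radius `12 r t log (n + 1)` read at most
`n / t` inputs, then the total is at least `n (log₂ t) ^ 2 / 16384` as soon as the charge of every
length above `r` is at least `t`. With `r` and `t` fixed and `n` large this holds in every space of
subexponential growth, so every charge which tends to infinity gives a superlinear total; see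
`superlinear_charge` (`Lib_MP_22d2c8_met/Growth.lean`) and `superlinear_grid`
(`Lib_MP_22d2c8_met/Grid.lean`).

Parked (not a hand-in): the row already has four stronger hand-ins.
-/

namespace Pool.Agent.Lib_MP_22d2c8_met

open Pool.Agent.Lib_MP_22d2c8_tw NNReal

/-- Parked result `EveryMetric` (four stronger hand-ins fill the row; see departures/helper76.md). -/
theorem every_metric : ∀ (n : ℕ) (K : Type) [Field K] [Algebra (ZMod 2) K]
      (b : Module.Basis (Fin n) (ZMod 2) K) (C : Circuit (Fin n ⊕ Fin n))
      (X : Type) [PseudoMetricSpace X] (pos : Fin C.size → X)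
      (charge : ℝ≥0 → ℝ) (r t : ℝ), 0 ≤ r → 1 ≤ t →
    (∀ s, 0 ≤ charge s) → (∀ s : ℝ≥0, r < s → t ≤ charge s) →
    (1 + (2 : ℝ) ^ (-(n / (2 * t) : ℝ))) * 2 ^ (2 * n) ≤ 2 * C.agreement (invForm b) →
    (∀ u, t * C.readsNear pos (pos u) (12 * r * t * Real.log (n + 1)) ≤ n) →
    (n : ℝ) * (Real.logb 2 t) ^ 2 ≤ 16384 * ∑ g, (1 + charge (C.reach pos g)) := by
  intro n K _ _ b C X _ pos charge r t hr ht hch0 hch hagr hball
  exact metric_lower_bound b C pos charge r t hr ht hch0 hch hagr hball

end Pool.Agent.Lib_MP_22d2c8_met
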