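import Pool.Agent.Lib_MP_22d2c8_met.CoreAvg

/-!
# Circuits which read few inputs have small correlation with the hard function
-/

namespace Pool.Agent.Lib_MP_22d2c8_tw

open Finset

theorem outF_congr {V : Type} (C : Circuit V) (x x' : V → Bool)
    (h : ∀ g v, (C.src1 g = Sum.inl v ∨ C.src2 g = Sum.inl v) → x v = x' v) :
    outF C x = outF C x' := by
  unfold outF
  have h1 := (exists_isVal C x).choose_spec
  have h2 := (exists_isVal C x').choose_spec
  set v := (exists_isVal C x).choose
  set v' := (exists_isVal C x').choose
  have h3 : C.IsVal x' v := by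
    intro g
    rw [h1 g]
    congr 1
    · apply C.srcVal_congr
      · intro i hi
        exact h g i (Or.inl hi)
      · intro _ _; rfl
    · apply C.srcVal_congr
      · intro i hi
        exact h g i (Or.inr hi)
      · intro _ _; rfl
  rw [h3.unique h2]

theorem chr_flip {n : ℕ} {K : Type} [Field K] [Algebra (ZMod 2) K]
    (b : Module.Basis (Fin n) (ZMod 2) K) (a : K) (k : Fin n) (hk : b.repr a k ≠ 0)
    (z : Fin n → Bool) : chr b (Function.update z k (!z k)) a = - chr b z a := by
  classical
  have h1 : ∀ z : Fin n → Bool, chr b z a =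
      ∏ k, sgn (decide (bit (z k) * b.repr a k = 1)) := fun z => sgn_sum _ _
  rw [h1, h1, ← mul_prod_erase univ _ (mem_univ k), ← mul_prod_erase univ
    (fun k => sgn (decide (bit (z k) * b.repr a k = 1))) (mem_univ k)]
  have h2 : ∏ j ∈ univ.erase k, sgn (decide (bit (Function.update z k (!z k) j) * b.repr a j = 1)) =
      ∏ j ∈ univ.erase k, sgn (decide (bit (z j) * b.repr a j = 1)) := by
    refine prod_congr rfl fun j hj => ?_
    rw [Function.update_of_ne (ne_of_mem_erase hj)]
  rw [h2, Function.update_self]
  have hk1 : b.repr a k = 1 := by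
    revert hk
    generalize b.repr a k = u
    revert u
    decide
  rw [hk1]
  have h3 : ∀ c : Bool, sgn (decide (bit (!c) * 1 = 1)) = - sgn (decide (bit c * 1 = 1)) := by
    intro c
    cases c <;> simp [bit, sgn]
  rw [h3, neg_mul]

theorem corr_le_of_reads {n : ℕ} {K : Type} [Field K] [Algebra (ZMod 2) K]
    (b : Module.Basis (Fin n) (ZMod 2) K) (C : Circuit (Fin n ⊕ Fin n)) :
    ∑ x, sgn (invForm b x) * sgn (outF C x) ≤ 2 ^ (n + C.reads) := by
  classical
  -- the coordinates of `z` which are read
  set Z : Finset (Fin n) := univ.filter fun k => ∃ g, C.Reads g (Sum.inr k) with hZ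
  have hZcard : Z.card ≤ C.reads := by
    have h1 : Z ⊆ (univ : Finset (Fin C.size)).biUnion fun g =>
        univ.filter fun k : Fin n => C.Reads g (Sum.inr k) := by
      intro k hk
      obtain ⟨g, hg⟩ := (mem_filter.1 hk).2
      rw [mem_biUnion]
      exact ⟨g, mem_univ g, mem_filter.2 ⟨mem_univ _, hg⟩⟩
    refine (card_le_card h1).trans (card_biUnion_le.trans ?_)
    rw [← sum_wt]
    refine sum_le_sum fun g _ => ?_
    have hsub : (univ.filter fun i : Fin n => C.Reads g (Sum.inr i)) ⊆
        (univ.filter fun i : Fin n => C.src1 g = Sum.inl (Sum.inr i)) ∪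
          (univ.filter fun i : Fin n => C.src2 g = Sum.inl (Sum.inr i)) := by
      intro i hi
      rw [mem_filter] at hi
      rw [mem_union, mem_filter, mem_filter]
      rcases hi.2 with h | h
      · exact Or.inl ⟨mem_univ _, h⟩
      · exact Or.inr ⟨mem_univ _, h⟩
    refine (card_le_card hsub).trans ((card_union_le _ _).trans ?_)
    have key : ∀ s : (Fin n ⊕ Fin n) ⊕ Fin C.size,
        (univ.filter fun i : Fin n => s = Sum.inl (Sum.inr i)).card ≤
          if s.isLeft then 1 else 0 := by
      intro s
      cases s with
      | inr h => simp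
      | inl v =>
        simp only [Sum.isLeft_inl, if_true]
        rw [card_le_one]
        intro a ha c hc
        rw [mem_filter] at ha hc
        have := ha.2.symm.trans hc.2
        exact Sum.inr.inj (Sum.inl.inj this)
    unfold Circuit.wt
    exact Nat.add_le_add (key _) (key _)
  set inv : (Fin n → Bool) → K := fun y => (∑ i, bit (y i) • b i)⁻¹ with hinv
  have hsplit : ∑ x, sgn (invForm b x) * sgn (outF C x) =
      ∑ y : Fin n → Bool, ∑ z : Fin n → Bool, chr b z (inv y) * sgn (outF C (Sum.elim y z)) := by
    rw [sum_inputs, sum_comm]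
    rfl
  rw [hsplit]
  have hin : ∀ y : Fin n → Bool, ∑ z : Fin n → Bool, chr b z (inv y) *
      sgn (outF C (Sum.elim y z)) ≤
      if (∀ k, k ∉ Z → b.repr (inv y) k = 0) then (2 : ℝ) ^ n else 0 := by
    intro y
    split_ifs with h
    · have h1 : ∀ z : Fin n → Bool, chr b z (inv y) * sgn (outF C (Sum.elim y z)) ≤ 1 := by
        intro z
        refine (le_abs_self _).trans ?_
        rw [abs_mul, abs_sgn]
        unfold chr
        rw [abs_sgn, one_mul]
      refine (sum_le_sum fun z _ => h1 z).trans (le_of_eq ?_)
      simp
    · push Not at h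
      obtain ⟨k, hk, hk2⟩ := h
      let σ : (Fin n → Bool) → (Fin n → Bool) := fun z => Function.update z k (!z k)
      have hσ : Function.Involutive σ := by
        intro z
        show Function.update (Function.update z k (!z k)) k
          (!(Function.update z k (!z k) k)) = z
        rw [Function.update_self, Bool.not_not, Function.update_idem, Function.update_eq_self]
      have h1 := Equiv.sum_comp (hσ.toPerm σ) (fun z : Fin n → Bool =>
        chr b z (inv y) * sgn (outF C (Sum.elim y z)))
      have h2 : ∀ z : Fin n → Bool, chr b (σ z) (inv y) * sgn (outF C (Sum.elim y (σ z))) =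
          - (chr b z (inv y) * sgn (outF C (Sum.elim y z))) := by
        intro z
        rw [chr_flip b (inv y) k hk2 z, neg_mul]
        congr 3
        apply outF_congr
        intro g v hv
        cases v with
        | inl i => rfl
        | inr j =>
          show Function.update z k (!z k) j = z j
          rw [Function.update_of_ne]
          rintro rfl
          exact hk (mem_filter.2 ⟨mem_univ _, g, hv⟩)
      have h3 : ∑ z : Fin n → Bool, chr b (σ z) (inv y) * sgn (outF C (Sum.elim y (σ z))) =
          - ∑ z : Fin n → Bool, chr b z (inv y) * sgn (outF C (Sum.elim y z)) := by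
        rw [← sum_neg_distrib]
        exact sum_congr rfl fun z _ => h2 z
      have h4 : ∑ z : Fin n → Bool, chr b (σ z) (inv y) * sgn (outF C (Sum.elim y (σ z))) =
          ∑ z : Fin n → Bool, chr b z (inv y) * sgn (outF C (Sum.elim y z)) := h1
      linarith
  refine (sum_le_sum fun y _ => hin y).trans ?_
  rw [← sum_filter, sum_const, nsmul_eq_mul, pow_add, mul_comm]
  apply mul_le_mul_of_nonneg_left _ (by positivity)
  have hcard : (univ.filter fun y : Fin n → Bool => ∀ k, k ∉ Z → b.repr (inv y) k = 0).card ≤
      2 ^ Z.card := by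
    have h1 : Fintype.card ({k // k ∈ Z} → ZMod 2) = 2 ^ Z.card := by
      rw [Fintype.card_fun, ZMod.card, Fintype.card_coe]
    rw [← h1, ← card_univ]
    apply card_le_card_of_injOn (fun y k => b.repr (inv y) k.1) (fun _ _ => mem_coe.2 (mem_univ _))
    intro y hy y' hy' hyy
    have hy2 := (mem_filter.1 (mem_coe.1 hy)).2
    have hy2' := (mem_filter.1 (mem_coe.1 hy')).2
    have h2 : inv y = inv y' := by
      apply b.repr.injective
      ext k
      by_cases hk : k ∈ Z
      · exact congrFun hyy ⟨k, hk⟩
      · rw [hy2 k hk, hy2' k hk]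
    have h3 : (∑ i, bit (y i) • b i) = ∑ i, bit (y' i) • b i := inv_injective h2
    have h4 : ∀ i, bit (y i) = bit (y' i) := by
      intro i
      have h5 := congrArg (fun a => b.repr a i) h3
      simpa [map_sum, Finsupp.single_apply, Finset.sum_ite_eq] using h5
    funext i
    have h6 := h4 i
    revert h6
    cases y i <;> cases y' i <;> simp [bit]
  have h2 : (2 : ℕ) ^ Z.card ≤ 2 ^ C.reads := Nat.pow_le_pow_right (by norm_num) hZcard
  exact_mod_cast hcard.trans h2

end Pool.Agent.Lib_MP_22d2c8_tw
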