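import Pool.Agent.Lib_MP_22d2c8_met.Growth

/-!
# Circuits placed in the integer grid
-/

namespace Pool.Agent.Lib_MP_22d2c8_tw

open Finset NNReal Filter

theorem tendsto_log_growth (M : ℝ) (hM : 1 ≤ M) (D : ℕ) :
    Tendsto (fun R : ℕ => Real.log (M * (2 * (R : ℝ) + 1) ^ D) / R) atTop (nhds 0) := by
  have h1 : Tendsto (fun R : ℕ => 2 * (R : ℝ) + 1) atTop atTop :=
    tendsto_atTop_add_const_right _ _ (tendsto_natCast_atTop_atTop.const_mul_atTop (by norm_num))
  have h2 := (Real.tendsto_pow_log_div_mul_add_atTop (1 / 2) (-(1 / 2)) 1 (by norm_num)).comp h1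
  have h3 : Tendsto (fun R : ℕ => Real.log (2 * (R : ℝ) + 1) / R) atTop (nhds 0) := by
    refine h2.congr fun R => ?_
    simp only [Function.comp, pow_one]
    congr 1
    ring
  have h4 : Tendsto (fun R : ℕ => Real.log M / (R : ℝ)) atTop (nhds 0) :=
    tendsto_const_nhds.div_atTop tendsto_natCast_atTop_atTop
  have h5 : Tendsto (fun R : ℕ => Real.log M / (R : ℝ) + D * (Real.log (2 * (R : ℝ) + 1) / R))
      atTop (nhds (0 + D * 0)) := h4.add (h3.const_mul _)
  rw [mul_zero, add_zero] at h5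
  refine h5.congr fun R => ?_
  have h6 : (0 : ℝ) < 2 * (R : ℝ) + 1 := by positivity
  rw [Real.log_mul (by linarith) (by positivity), Real.log_pow]
  ring

/-- Every charge on the length of wires which tends to infinity gives a superlinear total charge in
the integer grid of every fixed dimension, with up to `M * n ^ (1 - η)` gates at every point. -/
theorem superlinear_grid (D : ℕ) (M : ℝ) (hM : 1 ≤ M)
    (φ : ℝ≥0 → ℝ) (hφ0 : ∀ s, 0 ≤ φ s) (hφ : Tendsto φ atTop atTop) (A : ℝ)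
    (η : ℝ) (hη0 : 0 < η) (hη1 : η ≤ 1) :
    ∃ ε : ℝ, 0 < ε ∧ ∃ n₀ : ℕ, ∀ n : ℕ, n₀ ≤ n →
      ∀ (K : Type) [Field K] [Algebra (ZMod 2) K] (b : Module.Basis (Fin n) (ZMod 2) K)
        (C : Circuit (Fin n ⊕ Fin n)),
        (1 / 2 + (2 : ℝ) ^ (-(ε * n))) * 2 ^ (2 * n) ≤ C.agreement (invForm b) →
        ∀ pos : Fin C.size → (Fin D → ℤ),
          (∀ v, ((univ.filter fun g => pos g = v).card : ℝ) ≤ M * (n : ℝ) ^ (1 - η)) →
          A * n ≤ ∑ g, (1 + φ (C.reach pos g)) := by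
  obtain ⟨ε, hε, n₀, hn₀⟩ := superlinear_charge (fun R => M * (2 * (R : ℝ) + 1) ^ D)
    (tendsto_log_growth M hM D) φ hφ0 hφ A η hη0 hη1
  refine ⟨ε, hε, n₀, ?_⟩
  intro n hn K _ _ b C hagr pos hM2
  refine hn₀ n hn K b C hagr _ pos ?_
  intro u R T hT
  classical
  -- the box around `pos u`
  let B : Finset (Fin D → ℤ) := Fintype.piFinset fun i => Finset.Icc (pos u i - R) (pos u i + R)
  have hB : B.card = (2 * R + 1) ^ D := by
    simp only [B, Fintype.card_piFinset, Int.card_Icc]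
    have : ∀ i, (pos u i + R + 1 - (pos u i - R)).toNat = 2 * R + 1 := by
      intro i
      omega
    rw [prod_congr rfl fun i _ => this i]
    simp
  have hsub : T ⊆ B.biUnion fun v => univ.filter fun g => pos g = v := by
    intro g hg
    rw [mem_biUnion]
    refine ⟨pos g, ?_, mem_filter.2 ⟨mem_univ _, rfl⟩⟩
    simp only [B, Fintype.mem_piFinset, Finset.mem_Icc]
    intro i
    have h1 : dist (pos g i) (pos u i) ≤ R := (dist_le_pi_dist (pos g) (pos u) i).trans (hT g hg)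
    rw [Int.dist_eq] at h1
    have h2 : |pos g i - pos u i| ≤ (R : ℤ) := by exact_mod_cast h1
    rw [abs_le] at h2
    constructor <;> omega
  have h1 : (T.card : ℝ) ≤ ∑ v ∈ B, ((univ.filter fun g => pos g = v).card : ℝ) := by
    exact_mod_cast (card_le_card hsub).trans card_biUnion_le
  calc (T.card : ℝ) ≤ ∑ v ∈ B, ((univ.filter fun g => pos g = v).card : ℝ) := h1
    _ ≤ ∑ _v ∈ B, M * (n : ℝ) ^ (1 - η) := sum_le_sum fun v _ => hM2 v
    _ = (n : ℝ) ^ (1 - η) * (M * (2 * (R : ℝ) + 1) ^ D) := by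
        rw [sum_const, hB, nsmul_eq_mul]
        push_cast
        ring

end Pool.Agent.Lib_MP_22d2c8_tw
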