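import Pool.Agent.Lib_MP_22d2c8_met.Main

/-!
# Spaces of subexponential growth
-/

namespace Pool.Agent.Lib_MP_22d2c8_tw

open Finset NNReal Filter

theorem readsNear_le_card {V X : Type} [PseudoMetricSpace X] (C : Circuit V)
    (pos : Fin C.size → X) (x : X) (ρ : ℝ) [DecidablePred fun g => dist (pos g) x ≤ ρ] :
    C.readsNear pos x ρ ≤ 2 * (univ.filter fun g => dist (pos g) x ≤ ρ).card := by
  rw [readsNear_eq]
  calc ∑ g ∈ univ.filter (fun g => dist (pos g) x ≤ ρ), C.wt g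
      ≤ ∑ _g ∈ univ.filter (fun g => dist (pos g) x ≤ ρ), 2 :=
        sum_le_sum fun g _ => wt_le_two C g
    _ = 2 * (univ.filter fun g => dist (pos g) x ≤ ρ).card := by
        rw [sum_const, smul_eq_mul, mul_comm]

/-- In every family of spaces of uniformly subexponential growth `γ`, every charge on the length of
wires which tends to infinity gives a superlinear total charge, even for circuits which are right
only slightly more often than a random guess. -/
theorem superlinear_charge (γ : ℕ → ℝ)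
    (hγ : Tendsto (fun R : ℕ => Real.log (γ R) / R) atTop (nhds 0))
    (φ : ℝ≥0 → ℝ) (hφ0 : ∀ s, 0 ≤ φ s) (hφ : Tendsto φ atTop atTop) (A : ℝ)
    (η : ℝ) (hη0 : 0 < η) (hη1 : η ≤ 1) :
    ∃ ε : ℝ, 0 < ε ∧ ∃ n₀ : ℕ, ∀ n : ℕ, n₀ ≤ n →
      ∀ (K : Type) [Field K] [Algebra (ZMod 2) K] (b : Module.Basis (Fin n) (ZMod 2) K)
        (C : Circuit (Fin n ⊕ Fin n)),
        (1 / 2 + (2 : ℝ) ^ (-(ε * n))) * 2 ^ (2 * n) ≤ C.agreement (invForm b) →
        ∀ (X : Type) [PseudoMetricSpace X] (pos : Fin C.size → X),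
          (∀ (u : Fin C.size) (R : ℕ) (T : Finset (Fin C.size)),
            (∀ g ∈ T, dist (pos g) (pos u) ≤ R) → (T.card : ℝ) ≤ (n : ℝ) ^ (1 - η) * γ R) →
          A * n ≤ ∑ g, (1 + φ (C.reach pos g)) := by
  -- the threshold
  set x : ℝ := √(16384 * max A 1) with hx
  have hx2 : x ^ 2 = 16384 * max A 1 := Real.sq_sqrt (by positivity)
  set t : ℝ := (2 : ℝ) ^ x with ht
  have hx0 : 0 ≤ x := Real.sqrt_nonneg _
  have ht1 : 1 ≤ t := Real.one_le_rpow (by norm_num) hx0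
  have ht0 : 0 < t := by linarith
  have hlogt : Real.logb 2 t = x := Real.logb_rpow (by norm_num) (by norm_num)
  obtain ⟨r0, hr0⟩ := (tendsto_atTop_atTop.1 hφ) t
  set r : ℝ := (r0 : ℝ) + 1 with hr
  have hrpos : 0 < r := by positivity
  have hch : ∀ s : ℝ≥0, r < s → t ≤ φ s := by
    intro s hs
    apply hr0
    have : (r0 : ℝ) ≤ s := by linarith
    exact_mod_cast this
  -- the growth
  set a : ℝ := η / (24 * r * t) with ha
  have ha0 : 0 < a := by positivity
  have hev : ∀ᶠ R : ℕ in atTop, Real.log (γ R) / R < a := hγ.eventually_lt_const ha0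
  obtain ⟨R0, hR0⟩ := eventually_atTop.1 hev
  refine ⟨1 / (2 * t), by positivity, ?_⟩
  -- how large `n` has to be
  have hlim : Tendsto (fun n : ℕ => 12 * r * t * Real.log ((n : ℝ) + 1)) atTop atTop := by
    apply Tendsto.const_mul_atTop (by positivity)
    exact Real.tendsto_log_atTop.comp (tendsto_atTop_add_const_right _ _ tendsto_natCast_atTop_atTop)
  obtain ⟨n1, hn1⟩ := eventually_atTop.1 (hlim.eventually_ge_atTop ((R0 : ℝ) + 1))
  set W : ℝ := 4 * t * Real.exp a with hW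
  have hW0 : 0 < W := by positivity
  set n2 : ℕ := ⌈W ^ (2 / η)⌉₊ + 1 with hn2
  refine ⟨max n1 n2, ?_⟩
  intro n hn K _ _ b C hagr X _ pos hgrow
  classical
  have hnn1 : n1 ≤ n := le_trans (le_max_left _ _) hn
  have hnn2 : n2 ≤ n := le_trans (le_max_right _ _) hn
  have hn0 : (0 : ℝ) ≤ n := Nat.cast_nonneg _
  have hnpos : (1 : ℝ) ≤ n := by
    have : 1 ≤ n2 := by rw [hn2]; omega
    exact_mod_cast this.trans hnn2
  have hnp : (0 : ℝ) < n := by linarith
  set ρ : ℝ := 12 * r * t * Real.log (n + 1) with hρ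
  have hρR : (R0 : ℝ) + 1 ≤ ρ := hn1 n hnn1
  have hρ0 : 0 < ρ := by
    have : (0 : ℝ) ≤ R0 := Nat.cast_nonneg _
    linarith
  set R : ℕ := ⌈ρ⌉₊ with hR
  have hRge : ρ ≤ R := Nat.le_ceil _
  have hRlt : (R : ℝ) < ρ + 1 := Nat.ceil_lt_add_one hρ0.le
  have hRpos : (0 : ℝ) < R := lt_of_lt_of_le hρ0 hRge
  have hRR0 : R0 ≤ R := by
    have : (R0 : ℝ) ≤ R := by linarith
    exact_mod_cast this
  have hγR : γ R ≤ Real.exp (a * R) := by
    have h1 := hR0 R hRR0
    rw [div_lt_iff₀ hRpos] at h1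
    rcases le_or_gt (γ R) 0 with h2 | h2
    · exact h2.trans (Real.exp_pos _).le
    · rw [← Real.log_le_iff_le_exp h2]
      exact h1.le
  have hexp : Real.exp (a * R) ≤ Real.exp a * (2 * (n : ℝ) ^ (η / 2)) := by
    have h1 : a * R ≤ a + Real.log ((n : ℝ) + 1) * (η / 2) := by
      have h2 : a * R ≤ a * (ρ + 1) := mul_le_mul_of_nonneg_left hRlt.le ha0.le
      have h3 : a * ρ = Real.log ((n : ℝ) + 1) * (η / 2) := by
        rw [ha, hρ]
        field_simp
        ring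
      linarith
    have h4 : ((n : ℝ) + 1) ^ (η / 2) ≤ 2 * (n : ℝ) ^ (η / 2) := by
      calc ((n : ℝ) + 1) ^ (η / 2) ≤ (2 * (n : ℝ)) ^ (η / 2) :=
            Real.rpow_le_rpow (by linarith) (by linarith) (by linarith)
        _ = 2 ^ (η / 2) * (n : ℝ) ^ (η / 2) := Real.mul_rpow (by norm_num) hn0
        _ ≤ 2 ^ (1 : ℝ) * (n : ℝ) ^ (η / 2) := by
            apply mul_le_mul_of_nonneg_right _ (by positivity)
            exact Real.rpow_le_rpow_of_exponent_le (by norm_num) (by linarith)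
        _ = _ := by rw [Real.rpow_one]
    calc Real.exp (a * R) ≤ Real.exp (a + Real.log ((n : ℝ) + 1) * (η / 2)) := Real.exp_le_exp.2 h1
      _ = Real.exp a * Real.exp (Real.log ((n : ℝ) + 1) * (η / 2)) := Real.exp_add _ _
      _ = Real.exp a * ((n : ℝ) + 1) ^ (η / 2) := by
        rw [Real.rpow_def_of_pos (by linarith)]
      _ ≤ _ := mul_le_mul_of_nonneg_left h4 (Real.exp_pos _).le
  have hbig : t * (2 * ((n : ℝ) ^ (1 - η) * (Real.exp a * (2 * (n : ℝ) ^ (η / 2))))) ≤ n := by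
    have h1 : W ^ (2 / η) ≤ n := by
      have h2 : W ^ (2 / η) ≤ (⌈W ^ (2 / η)⌉₊ : ℝ) := Nat.le_ceil _
      have h3 : (⌈W ^ (2 / η)⌉₊ : ℝ) + 1 ≤ n := by
        rw [hn2] at hnn2
        exact_mod_cast hnn2
      linarith
    have h3 : W ≤ (n : ℝ) ^ (η / 2) := by
      have h4 : (W ^ (2 / η)) ^ (η / 2) ≤ (n : ℝ) ^ (η / 2) :=
        Real.rpow_le_rpow (by positivity) h1 (by linarith)
      rw [← Real.rpow_mul hW0.le] at h4
      have h5 : 2 / η * (η / 2) = 1 := by field_simp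
      rwa [h5, Real.rpow_one] at h4
    calc t * (2 * ((n : ℝ) ^ (1 - η) * (Real.exp a * (2 * (n : ℝ) ^ (η / 2)))))
        = W * ((n : ℝ) ^ (1 - η) * (n : ℝ) ^ (η / 2)) := by rw [hW]; ring
      _ ≤ (n : ℝ) ^ (η / 2) * ((n : ℝ) ^ (1 - η) * (n : ℝ) ^ (η / 2)) :=
          mul_le_mul_of_nonneg_right h3 (by positivity)
      _ = n := by
        rw [← Real.rpow_add hnp, ← Real.rpow_add hnp]
        have h6 : η / 2 + (1 - η + η / 2) = 1 := by ring
        rw [h6, Real.rpow_one]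
  have hball : ∀ u, t * C.readsNear pos (pos u) (12 * r * t * Real.log (n + 1)) ≤ n := by
    intro u
    have h1 := readsNear_le_card C pos (pos u) ρ
    have h2 : ((univ.filter fun g => dist (pos g) (pos u) ≤ ρ).card : ℝ) ≤
        (n : ℝ) ^ (1 - η) * γ R :=
      hgrow u R _ fun g hg => ((mem_filter.1 hg).2).trans hRge
    have h5 : (n : ℝ) ^ (1 - η) * γ R ≤
        (n : ℝ) ^ (1 - η) * (Real.exp a * (2 * (n : ℝ) ^ (η / 2))) :=
      mul_le_mul_of_nonneg_left (hγR.trans hexp) (by positivity)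
    have h4 : (C.readsNear pos (pos u) ρ : ℝ) ≤
        2 * ((n : ℝ) ^ (1 - η) * (Real.exp a * (2 * (n : ℝ) ^ (η / 2)))) := by
      have h6 : (C.readsNear pos (pos u) ρ : ℝ) ≤
          2 * ((univ.filter fun g => dist (pos g) (pos u) ≤ ρ).card : ℝ) := by exact_mod_cast h1
      linarith
    exact (mul_le_mul_of_nonneg_left h4 ht0.le).trans hbig
  have hagr2 : (1 + (2 : ℝ) ^ (-(n / (2 * t) : ℝ))) * 2 ^ (2 * n) ≤ 2 * C.agreement (invForm b) := by
    have h1 : -(1 / (2 * t) * (n : ℝ)) = -(n / (2 * t) : ℝ) := by ring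
    rw [h1] at hagr
    have h2 : (0 : ℝ) ≤ (2 : ℝ) ^ (-(n / (2 * t) : ℝ)) * 2 ^ (2 * n) := by positivity
    linarith
  have hfin := metric_lower_bound b C pos φ r t hrpos.le ht1 hφ0 hch hagr2 hball
  rw [hlogt, hx2] at hfin
  have h1 : A * n ≤ max A 1 * n := mul_le_mul_of_nonneg_right (le_max_left _ _) hn0
  linarith

end Pool.Agent.Lib_MP_22d2c8_tw
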