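import Pool.Agent.Lib_MP_22d2c8_met.Defs
import Pool.Agent.Lib_MP_22d2c8_met.Cluster
import Pool.Agent.Lib_MP_22d2c8_met.Cut
import Pool.Agent.Lib_MP_22d2c8_met.Few

/-!
# The lower bound for circuits placed in a metric space
-/

namespace Pool.Agent.Lib_MP_22d2c8_tw

open Finset NNReal

theorem readsNear_eq {V X : Type} [PseudoMetricSpace X] (C : Circuit V) (pos : Fin C.size → X)
    (x : X) (ρ : ℝ) [DecidablePred fun g => dist (pos g) x ≤ ρ] :
    C.readsNear pos x ρ = ∑ g ∈ univ.filter (fun g => dist (pos g) x ≤ ρ), C.wt g := by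
  classical
  unfold Circuit.readsNear Circuit.wt
  rw [sum_add_distrib, ← card_filter, ← card_filter, filter_filter, filter_filter]
  congr 1 <;> (apply congrArg; ext g; simp)

theorem dist_le_reach {V X : Type} [PseudoMetricSpace X] (C : Circuit V) (pos : Fin C.size → X)
    (g h : Fin C.size) (hgh : C.src1 h = Sum.inr g ∨ C.src2 h = Sum.inr g) :
    dist (pos g) (pos h) ≤ (C.reach pos g : ℝ) := by
  classical
  rw [← coe_nndist]
  apply NNReal.coe_le_coe.2
  unfold Circuit.reach
  exact le_sup (f := fun h => nndist (pos g) (pos h)) (mem_filter.2 ⟨mem_univ h, hgh⟩)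

theorem reads_le_two_mul {V : Type} (C : Circuit V) : C.reads ≤ 2 * C.size := by
  rw [← sum_wt]
  calc ∑ g, C.wt g ≤ ∑ _g : Fin C.size, 2 := sum_le_sum fun g _ => wt_le_two C g
    _ = 2 * C.size := by simp [mul_comm]

theorem logb_sq_le (t : ℝ) (ht : 1 ≤ t) : (Real.logb 2 t) ^ 2 ≤ 9 * t := by
  have ht0 : 0 < t := by linarith
  have h2 : (0.6931 : ℝ) < Real.log 2 := by
    have := Real.log_two_gt_d9
    linarith
  have h1 : Real.log t ≤ 2 * √t := by
    have h3 : Real.log t = 2 * Real.log (√t) := by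
      rw [Real.log_sqrt ht0.le]; ring
    have h4 : Real.log (√t) ≤ √t - 1 := Real.log_le_sub_one_of_pos (Real.sqrt_pos.2 ht0)
    linarith
  have h0 : 0 ≤ Real.log t := Real.log_nonneg ht
  have h5 : (Real.log t) ^ 2 ≤ 4 * t := by
    have h6 : (Real.log t) ^ 2 ≤ (2 * √t) ^ 2 := pow_le_pow_left₀ h0 h1 2
    rw [mul_pow, Real.sq_sqrt ht0.le] at h6
    linarith
  unfold Real.logb
  rw [div_pow, div_le_iff₀ (by positivity)]
  have h7 : (0.48 : ℝ) ≤ (Real.log 2) ^ 2 := by nlinarith
  have h8 : t * 0.48 ≤ t * (Real.log 2) ^ 2 := mul_le_mul_of_nonneg_left h7 ht0.le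
  linarith

theorem pow_quarter (x : ℝ) (hx : 64 ≤ x) : 5 / 2 + x ^ 2 / 16384 ≤ (2 : ℝ) ^ (x / 4) := by
  have h2 : (0.6931 : ℝ) < Real.log 2 := by
    have := Real.log_two_gt_d9
    linarith
  rw [Real.rpow_def_of_pos (by norm_num)]
  have h3 : 0 ≤ Real.log 2 * (x / 4) := by positivity
  have h4 := Real.quadratic_le_exp_of_nonneg h3
  have h5 : 0.6931 * (x / 4) ≤ Real.log 2 * (x / 4) :=
    mul_le_mul_of_nonneg_right h2.le (by linarith)
  have h6 : (0.6931 * (x / 4)) ^ 2 ≤ (Real.log 2 * (x / 4)) ^ 2 :=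
    pow_le_pow_left₀ (by positivity) h5 2
  nlinarith

theorem sum_sgn_eq {V : Type} [Fintype V] (C : Circuit V) (f : (V → Bool) → Bool) [DecidableEq V] :
    ∑ x, sgn (f x) * sgn (outF C x) = 2 * (C.agreement f : ℝ) - 2 ^ (Fintype.card V) := by
  classical
  have h1 : ∀ x, sgn (f x) * sgn (outF C x) =
      2 * (if ∃ v, C.IsVal x v ∧ v C.out = f x then 1 else 0) - 1 := by
    intro x
    have hspec := (exists_isVal C x).choose_spec
    have hiff : (∃ v, C.IsVal x v ∧ v C.out = f x) ↔ outF C x = f x := by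
      constructor
      · rintro ⟨v, hv, hvo⟩
        rw [← hvo]
        show (exists_isVal C x).choose C.out = v C.out
        rw [hspec.unique hv]
      · intro h
        exact ⟨_, hspec, h⟩
    simp only [hiff]
    cases hf : f x <;> cases ho : outF C x <;> simp [sgn] <;> norm_num
  have h2 : C.agreement f = (univ.filter fun x => ∃ v, C.IsVal x v ∧ v C.out = f x).card := by
    unfold Circuit.agreement
    apply congrArg
    ext x
    simp only [mem_filter, mem_univ, true_and]
  rw [sum_congr rfl fun x _ => h1 x, sum_sub_distrib, ← mul_sum, sum_boole, h2]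
  simp

/-- The main inequality. -/
theorem metric_core {n : ℕ} {K : Type} [Field K] [Algebra (ZMod 2) K]
    (b : Module.Basis (Fin n) (ZMod 2) K) (C : Circuit (Fin n ⊕ Fin n))
    {X : Type} [PseudoMetricSpace X] (pos : Fin C.size → X)
    (r t : ℝ) (hr : 0 < r) (ht : 1 ≤ t)
    (hcorr : (2 : ℝ) ^ (-(n / (2 * t) : ℝ)) * 2 ^ (2 * n) ≤
      ∑ x, sgn (invForm b x) * sgn (outF C x))
    (hball : ∀ u, t * C.readsNear pos (pos u) (12 * r * t * Real.log (n + 1)) ≤ n)
    [DecidablePred fun g => r < (C.reach pos g : ℝ)] :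
    (n : ℝ) * (Real.logb 2 t) ^ 2 ≤ 16384 *
      (C.size + t * ((univ.filter fun g => r < (C.reach pos g : ℝ)).card : ℝ)) := by
  classical
  by_contra hcon
  push Not at hcon
  set x : ℝ := Real.logb 2 t with hx
  have ht0 : 0 < t := by linarith
  set A : Fin C.size → Prop := fun g => (C.reach pos g : ℝ) ≤ r with hAdef
  set m : ℝ := ((univ.filter fun g => r < (C.reach pos g : ℝ)).card : ℝ) with hm
  have hm0 : 0 ≤ m := Nat.cast_nonneg _
  set N : ℝ := (C.size : ℝ) with hN
  have hN0 : 0 ≤ N := Nat.cast_nonneg _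
  have hlow : 16384 * (N + t * m) < n * x ^ 2 := hcon
  have hx0 : 0 ≤ x := Real.logb_nonneg (by norm_num) ht
  have htm : 0 ≤ t * m := by positivity
  have hn0 : (0 : ℝ) < n := by
    rcases Nat.eq_zero_or_pos n with h | h
    · exfalso
      rw [h] at hlow
      simp at hlow
      linarith
    · exact_mod_cast h
  -- number of reads
  have hRn : (n : ℝ) ≤ 2 * C.reads := by
    have h1 := hcorr.trans (corr_le_of_reads b C)
    have h2 : (2 : ℝ) ^ (-(n / (2 * t) : ℝ) + (2 * n : ℕ)) ≤ (2 : ℝ) ^ (((n + C.reads : ℕ) : ℝ)) := by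
      rw [Real.rpow_add (by norm_num), Real.rpow_natCast, Real.rpow_natCast]
      exact h1
    have h3 := (Real.rpow_le_rpow_left_iff (by norm_num : (1 : ℝ) < 2)).1 h2
    push_cast at h3
    have h4 : (n : ℝ) / (2 * t) ≤ n / 2 := by
      apply div_le_div_of_nonneg_left hn0.le (by norm_num)
      linarith
    linarith
  have hR2 : (C.reads : ℝ) ≤ 2 * N := by
    rw [hN]
    exact_mod_cast reads_le_two_mul C
  have hx64 : 64 < x := by
    by_contra h
    push Not at h
    have h1 : x ^ 2 ≤ 4096 := by nlinarith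
    have h2 : (n : ℝ) * x ^ 2 ≤ n * 4096 := mul_le_mul_of_nonneg_left h1 hn0.le
    linarith
  -- t is at most n
  have hlogn : 0 < Real.log ((n : ℝ) + 1) := Real.log_pos (by linarith)
  set ρ : ℝ := 12 * r * t * Real.log (n + 1) with hρ
  have hρ0 : 0 < ρ := by positivity
  have htn : t ≤ n := by
    obtain ⟨u, hu⟩ : ∃ u, 1 ≤ C.wt u := by
      by_contra h
      push Not at h
      have h1 : ∑ g, C.wt g = 0 := sum_eq_zero fun g _ => by
        have := h g
        omega
      rw [sum_wt] at h1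
      rw [h1] at hRn
      simp at hRn
      rw [hRn] at hn0
      simp at hn0
    have h1 : 1 ≤ C.readsNear pos (pos u) ρ := by
      rw [readsNear_eq]
      refine hu.trans ?_
      apply single_le_sum (f := fun g => C.wt g) (fun _ _ => Nat.zero_le _)
      rw [mem_filter]
      exact ⟨mem_univ u, by rw [dist_self]; exact hρ0.le⟩
    have h2 := hball u
    have h3 : (1 : ℝ) ≤ (C.readsNear pos (pos u) ρ : ℝ) := by exact_mod_cast h1
    have h4 : t * 1 ≤ t * (C.readsNear pos (pos u) ρ : ℝ) := mul_le_mul_of_nonneg_left h3 ht0.le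
    linarith
  -- the size is at most n ^ 2
  have hNn : N ≤ (n : ℝ) ^ 2 := by
    have h1 := logb_sq_le t ht
    rw [← hx] at h1
    have h2 : (n : ℝ) * x ^ 2 ≤ n * (9 * n) := mul_le_mul_of_nonneg_left (by linarith) hn0.le
    nlinarith
  have hlogN : Real.log (N + 1) ≤ 2 * Real.log (n + 1) := by
    have h1 : N + 1 ≤ ((n : ℝ) + 1) ^ 2 := by nlinarith
    have h2 : Real.log (N + 1) ≤ Real.log (((n : ℝ) + 1) ^ 2) :=
      Real.log_le_log (by linarith) h1
    rw [Real.log_pow] at h2
    push_cast at h2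
    exact h2
  have hlogN0 : 0 ≤ Real.log (N + 1) := Real.log_nonneg (by linarith)
  -- the clusters
  set κ : ℕ := ⌊5 / 2 * t * Real.log (N + 1)⌋₊ + 1 with hκdef
  have hκ1 : 5 / 2 * t * Real.log (N + 1) < κ := by
    rw [hκdef]
    push_cast
    exact Nat.lt_floor_add_one _
  have hκ2 : (κ : ℝ) ≤ 5 / 2 * t * Real.log (N + 1) + 1 := by
    rw [hκdef]
    push_cast
    have := Nat.floor_le (show 0 ≤ 5 / 2 * t * Real.log (N + 1) by positivity)
    linarith
  set η : ℝ := 1 / (2 * t) with hη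
  have hη0 : 0 < η := by positivity
  have hηt : η * t = 1 / 2 := by
    rw [hη]; field_simp
  have hη2 : η ≤ 1 / 2 := by
    rw [hη, div_le_div_iff₀ (by positivity) (by norm_num)]
    linarith
  have hgrow : N + 1 < (1 + η) ^ κ := by
    have h1 : 2 * η / (η + 2) ≤ Real.log (1 + η) := Real.le_log_one_add_of_nonneg hη0.le
    have h2 : 4 / 5 * η ≤ 2 * η / (η + 2) := by
      rw [le_div_iff₀ (by linarith)]
      nlinarith
    have h3 : Real.log (N + 1) < κ * Real.log (1 + η) := by
      have h4 : (κ : ℝ) * (4 / 5 * η) ≤ κ * Real.log (1 + η) :=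
        mul_le_mul_of_nonneg_left (h2.trans h1) (Nat.cast_nonneg _)
      have h5 : 5 / 2 * t * Real.log (N + 1) * (4 / 5 * η) < κ * (4 / 5 * η) :=
        mul_lt_mul_of_pos_right hκ1 (by positivity)
      have h6 : 5 / 2 * t * Real.log (N + 1) * (4 / 5 * η) = Real.log (N + 1) := by
        calc 5 / 2 * t * Real.log (N + 1) * (4 / 5 * η) = 2 * (η * t) * Real.log (N + 1) := by ring
          _ = Real.log (N + 1) := by rw [hηt]; ring
      linarith
    have h7 : Real.log (N + 1) < Real.log ((1 + η) ^ κ) := by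
      rw [Real.log_pow]
      exact h3
    exact (Real.log_lt_log_iff (by linarith) (by positivity)).1 h7
  have hreach : ∀ g h, A g → (C.src1 h = Sum.inr g ∨ C.src2 h = Sum.inr g) →
      ⌈dist (pos g) (pos h) / r⌉₊ ≤ 1 := by
    intro g h hg hgh
    apply Nat.ceil_le.2
    rw [div_le_iff₀ hr]
    have := dist_le_reach C pos g h hgh
    push_cast
    have h2 : (C.reach pos g : ℝ) ≤ r := hg
    linarith
  obtain ⟨comp, hrad, hcut⟩ := exists_clusters
    (fun g h : Fin C.size => ⌈dist (pos g) (pos h) / r⌉₊)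
    (fun v => by simp) (fun u v => by simp only [dist_comm])
    (fun u v w => by
      have h1 : dist (pos u) (pos w) / r ≤ dist (pos u) (pos v) / r + dist (pos v) (pos w) / r := by
        rw [← add_div]
        exact div_le_div_of_nonneg_right (dist_triangle _ _ _) hr.le
      exact (Nat.ceil_mono h1).trans (Nat.ceil_add_le _ _))
    (fun g h => C.src1 h = Sum.inr g ∨ C.src2 h = Sum.inr g) κ η hη0.le
    (by rw [Fintype.card_fin]; exact hgrow) A hreach
  -- the separator
  set Bc : Finset (Fin C.size) := univ.filter fun g =>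
    A g ∧ ∃ h, (C.src1 h = Sum.inr g ∨ C.src2 h = Sum.inr g) ∧ comp h ≠ comp g with hBc
  have hBcard : (Bc.card : ℝ) * t ≤ N := by
    have h1 := hcut Bc (fun g hg => (mem_filter.1 hg).2)
    rw [Fintype.card_fin] at h1
    have h2 : (Bc.card : ℝ) * t ≤ 2 * η * C.size * t := mul_le_mul_of_nonneg_right h1 ht0.le
    have h3 : 2 * η * C.size * t = N := by
      calc 2 * η * C.size * t = 2 * (η * t) * C.size := by ring
        _ = N := by rw [hηt, hN]; ring
    linarith
  set S : Finset (Fin C.size) := (univ.filter fun g => r < (C.reach pos g : ℝ)) ∪ Bc with hS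
  have hScard : (S.card : ℝ) * t ≤ t * m + N := by
    have h1 : (S.card : ℝ) ≤ m + Bc.card := by
      rw [hm]
      exact_mod_cast card_union_le _ _
    have h2 : (S.card : ℝ) * t ≤ (m + Bc.card) * t := mul_le_mul_of_nonneg_right h1 ht0.le
    linarith
  have hkey : ∀ u v, v ∉ S → (C.src1 u = Sum.inr v ∨ C.src2 u = Sum.inr v) →
      comp u = comp v := by
    intro u v hv huv
    by_contra hne
    apply hv
    rw [hS, mem_union]
    by_cases hA : A v
    · right
      rw [hBc, mem_filter]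
      exact ⟨mem_univ _, hA, u, huv, hne⟩
    · left
      rw [mem_filter]
      exact ⟨mem_univ _, lt_of_not_ge hA⟩
  have hcomp : ∀ u v, u ∉ S → v ∉ S → C.graph.Adj u v → comp u = comp v := by
    intro u v hu hv hadj
    unfold Circuit.graph at hadj
    rw [SimpleGraph.fromRel_adj] at hadj
    rcases hadj.2 with h | h
    · exact hkey u v hv h
    · exact (hkey v u hu h).symm
  set L : ℕ := ⌊(n : ℝ) / t⌋₊ with hL
  have hLle : (L : ℝ) ≤ n / t := Nat.floor_le (by positivity)
  have hfrag : ∀ q, ∑ v ∈ univ.filter (fun v => v ∉ S ∧ comp v = q), C.wt v ≤ L := by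
    intro q
    have h1 : ∑ v ∈ univ.filter (fun v => v ∉ S ∧ comp v = q), C.wt v ≤
        C.readsNear pos (pos q) ρ := by
      rw [readsNear_eq]
      apply sum_le_sum_of_subset
      intro v hv
      rw [mem_filter] at hv ⊢
      refine ⟨mem_univ _, ?_⟩
      have h2 := hrad v
      rw [hv.2.2] at h2
      have h3 : dist (pos q) (pos v) / r ≤ (⌈dist (pos q) (pos v) / r⌉₊ : ℝ) := Nat.le_ceil _
      have h4 : ((⌈dist (pos q) (pos v) / r⌉₊ : ℕ) : ℝ) + 1 ≤ 2 * κ := by exact_mod_cast h2
      have h5 : dist (pos q) (pos v) / r ≤ 12 * t * Real.log (n + 1) := by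
        have h6 : (2 : ℝ) * κ ≤ 5 * t * Real.log (N + 1) + 2 := by linarith
        have h7 : 5 * t * Real.log (N + 1) ≤ 5 * t * (2 * Real.log (n + 1)) :=
          mul_le_mul_of_nonneg_left hlogN (by positivity)
        have h8 : (1 : ℝ) ≤ 2 * t * Real.log (n + 1) := by
          have h9 : Real.log 2 ≤ Real.log ((n : ℝ) + 1) := by
            apply Real.log_le_log (by norm_num)
            have : (1 : ℝ) ≤ n := by linarith
            linarith
          have h10 := Real.log_two_gt_d9
          have h11 : (1 : ℝ) * (1 / 2) ≤ t * Real.log (n + 1) :=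
            mul_le_mul ht (by linarith) (by norm_num) ht0.le
          linarith
        linarith
      rw [div_le_iff₀ hr] at h5
      rw [dist_comm]
      calc dist (pos q) (pos v) ≤ 12 * t * Real.log (n + 1) * r := h5
        _ = ρ := by rw [hρ]; ring
    refine h1.trans ?_
    rw [hL]
    apply Nat.le_floor
    rw [le_div_iff₀ ht0, mul_comm]
    exact hball q
  -- apply the cut theorem
  have hdiv : (n : ℝ) / t * t = n := div_mul_cancel₀ _ ht0.ne'
  have hΔ : (n : ℝ) / (2 * t) = n / t * (1 / 2) := by field_simp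
  have hD1 : 1 + (S.card : ℝ) + L + n / (2 * t) ≤ n / t * (5 / 2 + x ^ 2 / 16384) := by
    have h1 : (1 : ℝ) ≤ n / t := by rw [le_div_iff₀ ht0]; linarith
    have h2 : (S.card : ℝ) ≤ n / t * (x ^ 2 / 16384) := by
      have h3 : (S.card : ℝ) * t ≤ (n / t * (x ^ 2 / 16384)) * t := by
        calc (S.card : ℝ) * t ≤ t * m + N := hScard
          _ ≤ n * x ^ 2 / 16384 := by linarith
          _ = (n / t * t) * (x ^ 2 / 16384) := by rw [hdiv]; ring
          _ = _ := by ring
      exact le_of_mul_le_mul_right h3 ht0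
    rw [hΔ]
    linarith
  have hq := pow_quarter x hx64.le
  have htx : t = (2 : ℝ) ^ x := by
    rw [hx, Real.rpow_logb (by norm_num) (by norm_num) ht0]
  have hE : 0 < 5 / 2 + x ^ 2 / 16384 := by positivity
  have hD2 : (n : ℝ) / t * (5 / 2 + x ^ 2 / 16384) ≤ n := by
    have h1 : 5 / 2 + x ^ 2 / 16384 ≤ t := by
      refine hq.trans ?_
      rw [htx]
      apply Real.rpow_le_rpow_of_exponent_le (by norm_num)
      linarith
    calc (n : ℝ) / t * (5 / 2 + x ^ 2 / 16384) ≤ n / t * t :=
          mul_le_mul_of_nonneg_left h1 (by positivity)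
      _ = n := hdiv
  have hfin := reads_of_cut b C (outF C) (computes_outF C) (n / (2 * t)) (by positivity) hcorr hRn
    S comp L hcomp hfrag _ hD1 hD2
  have hlog : 3 / 4 * x ≤ Real.logb 2 ((n : ℝ) / (n / t * (5 / 2 + x ^ 2 / 16384))) := by
    rw [Real.le_logb_iff_rpow_le (by norm_num) (by positivity)]
    rw [le_div_iff₀ (by positivity)]
    have h1 : (2 : ℝ) ^ (3 / 4 * x) * (2 : ℝ) ^ (x / 4) = t := by
      rw [← Real.rpow_add (by norm_num), htx]
      congr 1
      ring
    calc (2 : ℝ) ^ (3 / 4 * x) * (n / t * (5 / 2 + x ^ 2 / 16384))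
        ≤ (2 : ℝ) ^ (3 / 4 * x) * (n / t * (2 : ℝ) ^ (x / 4)) := by
          apply mul_le_mul_of_nonneg_left _ (by positivity)
          exact mul_le_mul_of_nonneg_left hq (by positivity)
      _ = n / t * ((2 : ℝ) ^ (3 / 4 * x) * (2 : ℝ) ^ (x / 4)) := by ring
      _ = n := by rw [h1, hdiv]
  have hsq : (3 / 4 * x) ^ 2 ≤ (Real.logb 2 ((n : ℝ) / (n / t * (5 / 2 + x ^ 2 / 16384)))) ^ 2 :=
    pow_le_pow_left₀ (by positivity) hlog 2
  have h1 : (n : ℝ) * (3 / 4 * x) ^ 2 ≤ 4096 * C.reads :=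
    (mul_le_mul_of_nonneg_left hsq hn0.le).trans hfin
  have h2 : 0 < (n : ℝ) * x ^ 2 := by positivity
  nlinarith

/-- The main inequality for a nonnegative threshold. -/
theorem metric_core' {n : ℕ} {K : Type} [Field K] [Algebra (ZMod 2) K]
    (b : Module.Basis (Fin n) (ZMod 2) K) (C : Circuit (Fin n ⊕ Fin n))
    {X : Type} [PseudoMetricSpace X] (pos : Fin C.size → X)
    (r t : ℝ) (hr : 0 ≤ r) (ht : 1 ≤ t)
    (hcorr : (2 : ℝ) ^ (-(n / (2 * t) : ℝ)) * 2 ^ (2 * n) ≤
      ∑ x, sgn (invForm b x) * sgn (outF C x))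
    (hball : ∀ u, t * C.readsNear pos (pos u) (12 * r * t * Real.log (n + 1)) ≤ n)
    [DecidablePred fun g => r < (C.reach pos g : ℝ)] :
    (n : ℝ) * (Real.logb 2 t) ^ 2 ≤ 16384 *
      (C.size + t * ((univ.filter fun g => r < (C.reach pos g : ℝ)).card : ℝ)) := by
  classical
  rcases hr.lt_or_eq with hr | hr
  · exact metric_core b C pos r t hr ht hcorr hball
  subst hr
  -- the smallest positive distance
  set Dis : Finset ℝ := ((univ : Finset (Fin C.size × Fin C.size)).image
    fun gh => dist (pos gh.1) (pos gh.2)).filter (fun s => 0 < s) with hDis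
  set W : ℝ := 12 * t * Real.log (n + 1) + 1 with hW
  have hlog0 : 0 ≤ Real.log ((n : ℝ) + 1) := Real.log_nonneg (by
    have : (0 : ℝ) ≤ n := Nat.cast_nonneg _
    linarith)
  have ht0 : 0 < t := by linarith
  have hWpos : 0 < W := by positivity
  obtain ⟨ε, hε0, hε⟩ : ∃ ε : ℝ, 0 < ε ∧ ∀ s ∈ Dis, ε < s := by
    by_cases hne : Dis.Nonempty
    · refine ⟨Dis.min' hne / 2, ?_, ?_⟩
      · have := (mem_filter.1 (Dis.min'_mem hne)).2
        linarith
      · intro s hs
        have h1 := Dis.min'_le s hs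
        have h2 := (mem_filter.1 (Dis.min'_mem hne)).2
        linarith
    · refine ⟨1, one_pos, fun s hs => ?_⟩
      exact absurd ⟨s, hs⟩ hne
  have hdist : ∀ g h : Fin C.size, dist (pos g) (pos h) ≤ ε → dist (pos g) (pos h) ≤ 0 := by
    intro g h hgh
    by_contra hcon
    push Not at hcon
    have := hε _ (mem_filter.2 ⟨mem_image.2 ⟨(g, h), mem_univ _, rfl⟩, hcon⟩)
    linarith
  set r' : ℝ := ε / W with hr'
  have hr'0 : 0 < r' := by positivity
  have hW1 : 1 ≤ W := by
    rw [hW]
    have : 0 ≤ 12 * t * Real.log ((n : ℝ) + 1) := by positivity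
    linarith
  have hr'ε : r' ≤ ε := div_le_self hε0.le hW1
  have hrad : 12 * r' * t * Real.log (n + 1) ≤ ε := by
    have h1 : 12 * r' * t * Real.log (n + 1) = r' * (W - 1) := by rw [hW]; ring
    have h2 : r' * W = ε := div_mul_cancel₀ _ hWpos.ne'
    rw [h1]
    linarith
  have hmono : ∀ u, C.readsNear pos (pos u) (12 * r' * t * Real.log (n + 1)) ≤
      C.readsNear pos (pos u) (12 * 0 * t * Real.log (n + 1)) := by
    intro u
    rw [readsNear_eq, readsNear_eq]
    apply sum_le_sum_of_subset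
    intro g hg
    rw [mem_filter] at hg ⊢
    refine ⟨mem_univ _, ?_⟩
    have := hdist g u (hg.2.trans hrad)
    simpa using this
  have hreach0 : ∀ g, r' < (C.reach pos g : ℝ) → (0 : ℝ) < (C.reach pos g : ℝ) :=
    fun g hg => lt_trans hr'0 hg
  have h1 := metric_core b C pos r' t hr'0 ht hcorr (fun u => by
    refine le_trans ?_ (hball u)
    apply mul_le_mul_of_nonneg_left _ ht0.le
    exact_mod_cast hmono u)
  refine h1.trans ?_
  apply mul_le_mul_of_nonneg_left _ (by norm_num)
  have h2 : (univ.filter fun g => r' < (C.reach pos g : ℝ)).card ≤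
      (univ.filter fun g => 0 < (C.reach pos g : ℝ)).card := by
    apply card_le_card
    intro g hg
    exact mem_filter.2 ⟨mem_univ _, hreach0 g (mem_filter.1 hg).2⟩
  have h3 : ((univ.filter fun g => r' < (C.reach pos g : ℝ)).card : ℝ) ≤
      ((univ.filter fun g => 0 < (C.reach pos g : ℝ)).card : ℝ) := by exact_mod_cast h2
  have h4 := mul_le_mul_of_nonneg_left h3 ht0.le
  linarith

/-- The lower bound for circuits placed in a metric space. -/
theorem metric_lower_bound {n : ℕ} {K : Type} [Field K] [Algebra (ZMod 2) K]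
    (b : Module.Basis (Fin n) (ZMod 2) K) (C : Circuit (Fin n ⊕ Fin n))
    {X : Type} [PseudoMetricSpace X] (pos : Fin C.size → X)
    (charge : ℝ≥0 → ℝ) (r t : ℝ) (hr : 0 ≤ r) (ht : 1 ≤ t) (hch0 : ∀ s, 0 ≤ charge s)
    (hch : ∀ s : ℝ≥0, r < s → t ≤ charge s)
    (hagr : (1 + (2 : ℝ) ^ (-(n / (2 * t) : ℝ))) * 2 ^ (2 * n) ≤ 2 * C.agreement (invForm b))
    (hball : ∀ u, t * C.readsNear pos (pos u) (12 * r * t * Real.log (n + 1)) ≤ n) :
    (n : ℝ) * (Real.logb 2 t) ^ 2 ≤ 16384 * ∑ g, (1 + charge (C.reach pos g)) := by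
  classical
  have hcorr : (2 : ℝ) ^ (-(n / (2 * t) : ℝ)) * 2 ^ (2 * n) ≤
      ∑ x, sgn (invForm b x) * sgn (outF C x) := by
    rw [sum_sgn_eq, Fintype.card_sum, Fintype.card_fin, ← two_mul]
    linarith
  refine (metric_core' b C pos r t hr ht hcorr hball).trans ?_
  apply mul_le_mul_of_nonneg_left _ (by norm_num)
  have h1 : ∀ g, (1 : ℝ) + (if r < (C.reach pos g : ℝ) then t else 0) ≤
      1 + charge (C.reach pos g) := by
    intro g
    split_ifs with h
    · have := hch (C.reach pos g) h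
      linarith
    · have := hch0 (C.reach pos g)
      linarith
  refine le_trans (le_of_eq ?_) (sum_le_sum fun g _ => h1 g)
  rw [sum_add_distrib, ← sum_filter, sum_const, sum_const, card_univ, Fintype.card_fin]
  simp only [nsmul_eq_mul, mul_one]
  ring

end Pool.Agent.Lib_MP_22d2c8_tw
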